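import Pool.Agent.TH192.PA.Spaces

set_option autoImplicit false
set_option linter.unusedSectionVars false
set_option linter.unusedVariables false

/-! # The towers of the generic, symmetric and skew symmetric matrices -/

namespace Pool.Agent.TH192.PA

open MeasureTheory Pool.Agent.W427.SMC Matrix
open scoped ENNReal NNReal

attribute [local instance] msZ bsZ

variable {p : ℕ} [Fact p.Prime]

theorem Tower.mk' {ν : ℕ → ℕ} (X : Sp p) (d : ℕ) (hν : Fintype.card X.ι = ν d)
    (h : ∀ w : X.ι → ℤ_[p], (∃ i, ¬ (p : ℤ_[p]) ∣ w i) →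
      ∃ (Y : Sp p) (δ : ℕ), Tower ν Y (d + δ) ∧ PivRel X Y δ w) : Tower ν X d := by
  classical
  have h1 : ∀ w : X.ι → ℤ_[p], ∃ (Y : Sp p) (δ : ℕ), (∃ i, ¬ (p : ℤ_[p]) ∣ w i) →
      Tower ν Y (d + δ) ∧ PivRel X Y δ w := by
    intro w
    by_cases hw : ∃ i, ¬ (p : ℤ_[p]) ∣ w i
    · obtain ⟨Y, δ, h2⟩ := h w hw
      exact ⟨Y, δ, fun _ => h2⟩
    · exact ⟨X, 0, fun h3 => absurd h3 hw⟩
  choose Y δ h2 using h1
  exact Tower.mk X d hν Y δ (fun w hw => (h2 w hw).1) (fun w hw => (h2 w hw).2)

/-- The generic matrix. -/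
def genM {I J : Type} (z : I × J → ℤ_[p]) : Matrix I J ℤ_[p] := Matrix.of fun i j => z (i, j)

/-- The symmetric matrix. -/
def symM {I : Type} (z : Sym2 I → ℤ_[p]) : Matrix I I ℤ_[p] := Matrix.of fun i j => z s(i, j)

/-- The skew symmetric matrix. -/
noncomputable def skewM {I : Type} [LinearOrder I] (z : {q : I × I // q.1 < q.2} → ℤ_[p]) :
    Matrix I I ℤ_[p] := Matrix.of fun i j =>
  if h : i < j then z ⟨(i, j), h⟩ else if h : j < i then - z ⟨(j, i), h⟩ else 0

/-- All `I × J` matrices. -/
def genSp (p : ℕ) [Fact p.Prime] (I J : Type) [Fintype I] [Fintype J] : MSp p where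
  I := I
  J := J
  ι := I × J
  fI := inferInstance
  fJ := inferInstance
  fι := inferInstance
  M := genM
  pos q := q
  hpos _ _ := rfl
  add _ _ := rfl
  smul _ _ := rfl
  cont := by
    refine continuous_matrix fun i j => ?_
    exact continuous_apply (i, j)

/-- The symmetric `I × I` matrices. -/
noncomputable def symSp (p : ℕ) [Fact p.Prime] (I : Type) [Fintype I] [DecidableEq I] : MSp p where
  I := I
  J := I
  ι := Sym2 I
  fI := inferInstance
  fJ := inferInstance
  fι := inferInstance
  M := symM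
  pos q := Quot.out q
  hpos z q := by
    have h1 : s((Quot.out q).1, (Quot.out q).2) = q := Quot.out_eq q
    rw [symM, Matrix.of_apply, h1]
  add _ _ := rfl
  smul _ _ := rfl
  cont := by
    refine continuous_matrix fun i j => ?_
    exact continuous_apply s(i, j)

/-- The skew symmetric `I × I` matrices. -/
noncomputable def skewSp (p : ℕ) [Fact p.Prime] (I : Type) [Fintype I] [LinearOrder I] :
    MSp p where
  I := I
  J := I
  ι := {q : I × I // q.1 < q.2}
  fI := inferInstance
  fJ := inferInstance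
  fι := inferInstance
  M := skewM
  pos q := q.1
  hpos z q := by
    rw [skewM, Matrix.of_apply, dif_pos q.2]
  add z z' := by
    ext i j
    simp only [skewM, Matrix.of_apply, Matrix.add_apply, Pi.add_apply]
    split_ifs <;> ring
  smul c z := by
    ext i j
    simp only [skewM, Matrix.of_apply, Matrix.smul_apply, smul_eq_mul]
    split_ifs <;> ring
  cont := by
    refine continuous_matrix fun i j => ?_
    simp only [skewM, Matrix.of_apply]
    split_ifs with h1 h2
    · exact continuous_apply _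
    · exact (continuous_apply _).neg
    · exact continuous_const

section surj

variable {I I' J J' : Type}

theorem genM_surj (N : Matrix I J ℤ_[p]) : ∃ y : I × J → ℤ_[p], genM y = N :=
  ⟨fun q => N q.1 q.2, rfl⟩

theorem symM_surj (N : Matrix I I ℤ_[p]) (hN : N.transpose = N) :
    ∃ y : Sym2 I → ℤ_[p], symM y = N := by
  refine ⟨fun q => N (Quot.out q).1 (Quot.out q).2, ?_⟩
  ext i j
  change N (Quot.out s(i, j)).1 (Quot.out s(i, j)).2 = N i j
  have h1 : s((Quot.out s(i, j)).1, (Quot.out s(i, j)).2) = s(i, j) := Quot.out_eq _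
  rcases Sym2.eq_iff.1 h1 with ⟨h2, h3⟩ | ⟨h2, h3⟩
  · rw [h2, h3]
  · rw [h2, h3]
    exact congrFun (congrFun hN i) j

theorem skewM_surj [LinearOrder I] (N : Matrix I I ℤ_[p]) (hN : N.transpose = - N) :
    ∃ y : {q : I × I // q.1 < q.2} → ℤ_[p], skewM y = N := by
  refine ⟨fun q => N q.1.1 q.1.2, ?_⟩
  ext i j
  change (if h : i < j then N i j else if h : j < i then - N j i else 0) = N i j
  have h1 : ∀ i j, N j i = - N i j := fun i j => congrFun (congrFun hN i) j
  split_ifs with h2 h3
  · rfl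
  · rw [h1 i j, neg_neg]
  · have h4 : i = j := le_antisymm (not_lt.1 h3) (not_lt.1 h2)
    subst h4
    have h5 := h1 i i
    have h6 : (2 : ℤ_[p]) * N i i = 0 := by linear_combination h5
    rcases mul_eq_zero.1 h6 with h7 | h7
    · exact absurd h7 two_ne_zero
    · exact h7.symm

theorem symM_symm (z : Sym2 I → ℤ_[p]) : (symM z).transpose = symM z := by
  ext i j
  change z s(j, i) = z s(i, j)
  rw [Sym2.eq_swap]

theorem skewM_skew [LinearOrder I] (z : {q : I × I // q.1 < q.2} → ℤ_[p]) :
    (skewM z).transpose = - skewM z := by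
  ext i j
  change (if h : j < i then z ⟨(j, i), h⟩ else if h : i < j then - z ⟨(i, j), h⟩ else 0) =
    - (if h : i < j then z ⟨(i, j), h⟩ else if h : j < i then - z ⟨(j, i), h⟩ else 0)
  split_ifs with h1 h2 h3
  · exact absurd (lt_trans h1 h2) (lt_irrefl _)
  · rw [neg_neg]
  · rfl
  · rw [neg_zero]

/-- extension of a symmetric (skew) matrix by zero -/
theorem ext_zero {k : ℕ} (ε : ℤ_[p]) (e : Fin k ⊕ I' ≃ I) (N : Matrix I' I' ℤ_[p])
    (hN : N.transpose = ε • N) : ((Matrix.fromBlocks (0 : Matrix (Fin k) (Fin k) ℤ_[p]) 0 0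
      N).submatrix e.symm e.symm).transpose =
      ε • (Matrix.fromBlocks (0 : Matrix (Fin k) (Fin k) ℤ_[p]) 0 0 N).submatrix e.symm e.symm := by
  rw [Matrix.transpose_submatrix, Matrix.fromBlocks_transpose, hN]
  have h1 : Matrix.fromBlocks (0 : Matrix (Fin k) (Fin k) ℤ_[p]).transpose
      (0 : Matrix I' (Fin k) ℤ_[p]).transpose (0 : Matrix (Fin k) I' ℤ_[p]).transpose (ε • N) =
      ε • Matrix.fromBlocks (0 : Matrix (Fin k) (Fin k) ℤ_[p]) 0 0 N := by
    rw [Matrix.fromBlocks_smul]
    simp only [Matrix.transpose_zero, smul_zero]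
  rw [h1]
  rfl

theorem submatrix_symm' {k : ℕ} (e1 : Fin k ⊕ I' ≃ I) (e2 : Fin k ⊕ J' ≃ J)
    (N : Matrix (Fin k ⊕ I') (Fin k ⊕ J') ℤ_[p]) :
    (N.submatrix e1.symm e2.symm).submatrix e1 e2 = N := by
  ext a b
  simp

theorem gen_hE {k : ℕ} (e1 : Fin k ⊕ I' ≃ I) (e2 : Fin k ⊕ J' ≃ J) (y : I' × J' → ℤ_[p]) :
    ∃ x : I × J → ℤ_[p], (genM x).submatrix e1 e2 = Matrix.fromBlocks 0 0 0 (genM y) := by
  obtain ⟨x, hx⟩ := genM_surj ((Matrix.fromBlocks (0 : Matrix (Fin k) (Fin k) ℤ_[p]) 0 0
    (genM y)).submatrix e1.symm e2.symm)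
  exact ⟨x, by rw [hx, submatrix_symm']⟩

theorem sym_hS {k : ℕ} (e : Fin k ⊕ I' → I) (z : Sym2 I → ℤ_[p])
    (hz : IsUnit (piv (symM z) e e).det) :
    ∃ y : Sym2 I' → ℤ_[p], symM y = schur (symM z) e e := by
  refine symM_surj _ ?_
  have h2 := schur_eps (1 : ℤ_[p]) (one_mul 1) (symM z) e hz (by rw [one_smul, symM_symm])
  rwa [one_smul] at h2

theorem sym_hE {k : ℕ} (e : Fin k ⊕ I' ≃ I) (y : Sym2 I' → ℤ_[p]) :
    ∃ x : Sym2 I → ℤ_[p], (symM x).submatrix e e = Matrix.fromBlocks 0 0 0 (symM y) := by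
  have h3 := ext_zero (1 : ℤ_[p]) e (symM y) (by rw [one_smul, symM_symm])
  rw [one_smul] at h3
  obtain ⟨x, hx⟩ := symM_surj _ h3
  exact ⟨x, by rw [hx, submatrix_symm']⟩

theorem skew_hS {k : ℕ} [LinearOrder I] [LinearOrder I'] (e : Fin k ⊕ I' → I)
    (z : {q : I × I // q.1 < q.2} → ℤ_[p])
    (hz : IsUnit (piv (skewM z) e e).det) :
    ∃ y : {q : I' × I' // q.1 < q.2} → ℤ_[p], skewM y = schur (skewM z) e e := by
  refine skewM_surj _ ?_
  have h2 := schur_eps (-1 : ℤ_[p]) (by ring) (skewM z) e hz (by rw [neg_one_smul, skewM_skew])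
  rwa [neg_one_smul] at h2

theorem skew_hE {k : ℕ} [LinearOrder I] [LinearOrder I'] (e : Fin k ⊕ I' ≃ I)
    (y : {q : I' × I' // q.1 < q.2} → ℤ_[p]) :
    ∃ x : {q : I × I // q.1 < q.2} → ℤ_[p],
      (skewM x).submatrix e e = Matrix.fromBlocks 0 0 0 (skewM y) := by
  have h3 := ext_zero (-1 : ℤ_[p]) e (skewM y) (by rw [neg_one_smul, skewM_skew])
  rw [neg_one_smul] at h3
  obtain ⟨x, hx⟩ := skewM_surj _ h3
  exact ⟨x, by rw [hx, submatrix_symm']⟩

end surj

/-- removing one index -/
noncomputable def eq1 {I : Type} (i0 : I) : Fin 1 ⊕ {x : I // x ≠ i0} ≃ I :=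
  Equiv.ofBijective (Sum.elim (fun _ => i0) Subtype.val) (by
    constructor
    · rintro (x | x) (y | y) h
      · rw [Subsingleton.elim x y]
      · exact absurd h.symm y.2
      · exact absurd h x.2
      · rw [Subtype.ext h]
    · intro x
      by_cases h : x = i0
      · exact ⟨Sum.inl 0, h.symm⟩
      · exact ⟨Sum.inr ⟨x, h⟩, rfl⟩)

/-- removing two indices -/
noncomputable def eq2 {I : Type} (i0 j0 : I) (hij : i0 ≠ j0) :
    Fin 2 ⊕ {x : I // x ≠ i0 ∧ x ≠ j0} ≃ I :=
  Equiv.ofBijective (Sum.elim ![i0, j0] Subtype.val) (by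
    constructor
    · rintro (x | x) (y | y) h
      · congr 1
        fin_cases x <;> fin_cases y
        · rfl
        · exact absurd h hij
        · exact absurd h.symm hij
        · rfl
      · exfalso
        fin_cases x
        · exact y.2.1 h.symm
        · exact y.2.2 h.symm
      · exfalso
        fin_cases y
        · exact x.2.1 h
        · exact x.2.2 h
      · rw [Subtype.ext h]
    · intro x
      by_cases h : x = i0
      · exact ⟨Sum.inl 0, h.symm⟩
      · by_cases h' : x = j0
        · exact ⟨Sum.inl 1, h'.symm⟩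
        · exact ⟨Sum.inr ⟨x, h, h'⟩, rfl⟩)

theorem card_eq1 {I : Type} [Fintype I] [DecidableEq I] (i0 : I) :
    Fintype.card {x : I // x ≠ i0} = Fintype.card I - 1 := by
  have h1 := Fintype.card_congr (eq1 i0)
  rw [Fintype.card_sum, Fintype.card_fin] at h1
  omega

theorem card_eq2 {I : Type} [Fintype I] [DecidableEq I] (i0 j0 : I) (hij : i0 ≠ j0) :
    Fintype.card {x : I // x ≠ i0 ∧ x ≠ j0} = Fintype.card I - 2 := by
  have h1 := Fintype.card_congr (eq2 i0 j0 hij)
  rw [Fintype.card_sum, Fintype.card_fin] at h1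
  omega

theorem tower_gen (m n : ℕ) : ∀ (l d : ℕ) (I J : Type) [Fintype I] [Fintype J],
    Fintype.card I = l → Fintype.card I = m - d → Fintype.card J = n - d →
    Tower (fun d => (m - d) * (n - d)) ((genSp p I J).toSp 1 one_pos) d := by
  classical
  intro l
  induction l using Nat.strong_induction_on with
  | _ l ih =>
    intro d I J _ _ hl hI hJ
    refine Tower.mk' _ d ?_ ?_
    · change Fintype.card (I × J) = _
      rw [Fintype.card_prod, hI, hJ]
    · rintro w ⟨⟨i0, j0⟩, hw⟩
      have hIpos : 0 < Fintype.card I := Fintype.card_pos_iff.2 ⟨i0⟩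
      have hJpos : 0 < Fintype.card J := Fintype.card_pos_iff.2 ⟨j0⟩
      have h1 := card_eq1 i0
      have h2 := card_eq1 j0
      refine ⟨(genSp p {x : I // x ≠ i0} {x : J // x ≠ j0}).toSp 1 one_pos, 1,
        ih (Fintype.card I - 1) (by omega) (d + 1) _ _ h1 (by rw [h1]; omega)
          (by rw [h2]; omega), ?_⟩
      refine piv_rel (genSp p I J) (genSp p {x : I // x ≠ i0} {x : J // x ≠ j0}) 1 one_pos 1
        one_pos rfl (eq1 i0) (eq1 j0) w ?_ (fun z _ => genM_surj _)
        (fun y => gen_hE (eq1 i0) (eq1 j0) y)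
      rw [Matrix.det_fin_one]
      exact (isUnit_iff_dvd _).2 hw

theorem tower_sym (n : ℕ) : ∀ (l d : ℕ) (I : Type) [Fintype I] [DecidableEq I],
    Fintype.card I = l → Fintype.card I = n - d →
    Tower (fun d => (n - d) * (n - d + 1) / 2) ((symSp p I).toSp 1 one_pos) d := by
  classical
  intro l
  induction l using Nat.strong_induction_on with
  | _ l ih =>
    intro d I _ _ hl hI
    have key : ∀ (I' : Type) [Fintype I'] [DecidableEq I'] (k : ℕ) (hk : 0 < k)
        (e : Fin k ⊕ I' ≃ I) (w : Sym2 I → ℤ_[p]) (hA : IsUnit (piv (symM w) e e).det),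
        ∃ (Y : Sp p) (δ : ℕ), Tower (fun d => (n - d) * (n - d + 1) / 2) Y (d + δ) ∧
          PivRel ((symSp p I).toSp 1 one_pos) Y δ w := by
      intro I' _ _ k hk e w hA
      have h1 := Fintype.card_congr e
      rw [Fintype.card_sum, Fintype.card_fin] at h1
      refine ⟨(symSp p I').toSp 1 one_pos, k, ih (Fintype.card I') (by omega) (d + k) I' rfl
        (by omega), ?_⟩
      exact piv_rel (symSp p I) (symSp p I') 1 one_pos k hk (one_mul k).symm e e w hA
        (fun z hz => sym_hS e z hz) (fun y => sym_hE e y)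
    refine Tower.mk' _ d ?_ ?_
    · change Fintype.card (Sym2 I) = _
      rw [Sym2.card, hI, Nat.choose_two_right, Nat.add_sub_cancel, mul_comm]
    · intro w hw
      by_cases hd : ∃ i, ¬ (p : ℤ_[p]) ∣ w s(i, i)
      · obtain ⟨i, hi⟩ := hd
        refine key {x // x ≠ i} 1 one_pos (eq1 i) w ?_
        rw [Matrix.det_fin_one]
        exact (isUnit_iff_dvd _).2 hi
      · push Not at hd
        obtain ⟨q, hq⟩ := hw
        induction q using Sym2.inductionOn with
        | _ i j =>
          have hij : i ≠ j := by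
            rintro rfl
            exact hq (hd i)
          refine key {x // x ≠ i ∧ x ≠ j} 2 two_pos (eq2 i j hij) w ?_
          rw [Matrix.det_fin_two]
          rw [isUnit_iff_dvd]
          change ¬ (p : ℤ_[p]) ∣ w s(i, i) * w s(j, j) - w s(i, j) * w s(j, i)
          intro h4
          have h5 : (p : ℤ_[p]) ∣ w s(i, j) * w s(i, j) := by
            have h6 : w s(i, j) * w s(i, j) = w s(i, i) * w s(j, j) -
                (w s(i, i) * w s(j, j) - w s(i, j) * w s(j, i)) := by
              rw [Sym2.eq_swap (a := j) (b := i)]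
              ring
            rw [h6]
            exact dvd_sub ((hd i).mul_right _) h4
          rcases (PadicInt.prime_p.dvd_or_dvd h5) with h7 | h7 <;> exact hq h7

theorem card_skew (I : Type) [Fintype I] [LinearOrder I] :
    Fintype.card {q : I × I // q.1 < q.2} = Fintype.card I * (Fintype.card I - 1) / 2 := by
  classical
  have h1 : Fintype.card {q : I × I // q.1 < q.2} = Fintype.card {q : I × I // q.2 < q.1} :=
    Fintype.card_congr ((Equiv.prodComm I I).subtypeEquiv (fun _ => Iff.rfl))
  have h2 : Fintype.card (I × I) = Fintype.card {q : I × I // q.1 < q.2} +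
      (Fintype.card {q : I × I // q.2 < q.1} + Fintype.card I) := by
    rw [← Fintype.card_sum, ← Fintype.card_sum]
    refine Fintype.card_congr ?_
    refine Equiv.symm (Equiv.ofBijective
      (fun x : {q : I × I // q.1 < q.2} ⊕ ({q : I × I // q.2 < q.1} ⊕ I) => match x with
        | Sum.inl q => q.1
        | Sum.inr (Sum.inl q) => q.1
        | Sum.inr (Sum.inr i) => (i, i)) ⟨?_, ?_⟩)
    · rintro (⟨a, ha⟩ | (⟨a, ha⟩ | a)) (⟨b, hb⟩ | (⟨b, hb⟩ | b)) h
      · exact congrArg Sum.inl (Subtype.ext h)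
      · exfalso
        change a = b at h
        subst h
        exact lt_asymm ha hb
      · exfalso
        change a = (b, b) at h
        subst h
        exact lt_irrefl _ ha
      · exfalso
        change a = b at h
        subst h
        exact lt_asymm ha hb
      · exact congrArg Sum.inr (congrArg Sum.inl (Subtype.ext h))
      · exfalso
        change a = (b, b) at h
        subst h
        exact lt_irrefl _ ha
      · exfalso
        change (a, a) = b at h
        subst h
        exact lt_irrefl _ hb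
      · exfalso
        change (a, a) = b at h
        subst h
        exact lt_irrefl _ hb
      · change (a, a) = (b, b) at h
        rw [(Prod.mk.inj h).1]
    · rintro ⟨a, b⟩
      rcases lt_trichotomy a b with h | h | h
      · exact ⟨Sum.inl ⟨(a, b), h⟩, rfl⟩
      · exact ⟨Sum.inr (Sum.inr a), by rw [h]⟩
      · exact ⟨Sum.inr (Sum.inl ⟨(a, b), h⟩), rfl⟩
  rw [Fintype.card_prod, ← h1] at h2
  symm
  apply Nat.div_eq_of_eq_mul_left two_pos
  rw [Nat.mul_sub, h2]
  omega

theorem tower_skew (n : ℕ) : ∀ (l d : ℕ) (I : Type) [Fintype I] [LinearOrder I],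
    Fintype.card I = l → Fintype.card I = n - 2 * d →
    Tower (fun d => (n - 2 * d) * (n - 2 * d - 1) / 2) ((skewSp p I).toSp 2 two_pos) d := by
  classical
  intro l
  induction l using Nat.strong_induction_on with
  | _ l ih =>
    intro d I _ _ hl hI
    refine Tower.mk' _ d ?_ ?_
    · change Fintype.card {q : I × I // q.1 < q.2} = _
      rw [card_skew, hI]
    · rintro w ⟨⟨⟨i, j⟩, hlt⟩, hw⟩
      change i < j at hlt
      have hij : i ≠ j := hlt.ne
      have hc := card_eq2 i j hij
      have h2I : 2 ≤ Fintype.card I := by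
        have h1 := Fintype.card_congr (eq2 i j hij)
        rw [Fintype.card_sum, Fintype.card_fin] at h1
        omega
      set I' := {x : I // x ≠ i ∧ x ≠ j} with hI'
      refine ⟨(skewSp p I').toSp 2 two_pos, 1, ih (Fintype.card I') (by rw [hc]; omega) (d + 1) I'
        rfl (by rw [hc]; omega), ?_⟩
      refine piv_rel (skewSp p I) (skewSp p I') 2 two_pos 1 one_pos rfl (eq2 i j hij)
        (eq2 i j hij) w ?_ (fun z hz => skew_hS _ z hz) (fun y => skew_hE _ y)
      have e1 : ∀ a, skewM w a a = 0 := by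
        intro a
        change (if h : a < a then _ else if h : a < a then _ else (0 : ℤ_[p])) = 0
        rw [dif_neg (lt_irrefl a), dif_neg (lt_irrefl a)]
      have e2 : skewM w i j = w ⟨(i, j), hlt⟩ := by
        change (if h : i < j then w ⟨(i, j), h⟩ else if h : j < i then - w ⟨(j, i), h⟩ else
          (0 : ℤ_[p])) = _
        rw [dif_pos hlt]
      have e3 : skewM w j i = - w ⟨(i, j), hlt⟩ := by
        change (if h : j < i then w ⟨(j, i), h⟩ else if h : i < j then - w ⟨(i, j), h⟩ else
          (0 : ℤ_[p])) = _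
        rw [dif_neg (lt_asymm hlt), dif_pos hlt]
      have e4 : (piv (skewM w) (eq2 i j hij) (eq2 i j hij)).det =
          w ⟨(i, j), hlt⟩ * w ⟨(i, j), hlt⟩ := by
        rw [Matrix.det_fin_two]
        change skewM w i i * skewM w j j - skewM w i j * skewM w j i = _
        rw [e1, e2, e3]
        ring
      have e5 : IsUnit (piv (skewM w) (eq2 i j hij) (eq2 i j hij)).det := by
        rw [e4, isUnit_iff_dvd]
        intro h4
        rcases (PadicInt.prime_p.dvd_or_dvd h4) with h7 | h7 <;> exact hw h7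
      exact e5

end Pool.Agent.TH192.PA
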