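import Pool.Agent.TH192.PA.SkewNorm

set_option autoImplicit false
set_option linter.unusedSectionVars false
set_option linter.unusedVariables false

/-! # The forms with integral coefficients and their zeta functions -/

namespace Pool.Agent.TH192.DT.MSpace

open MvPolynomial

/-- The minors (Pfaffians) as polynomials with integral coefficients. -/
noncomputable def minorsZ : (S : MSpace) → (k : ℕ) → S.Idx k → MvPolynomial S.Var ℤ
  | gen m n, k => minorsOf (Matrix.of fun (i : Fin m) (j : Fin n) => X (i, j)) k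
  | sym n, k => minorsOf (Matrix.of fun (i j : Fin n) => X s(i, j)) k
  | skew n, k => fun r : Fin (2 * k) ↪o Fin n => Pool.Agent.Helper929.pf (2 * k)
      ((Matrix.of fun (i j : Fin n) => if h : i < j then X ⟨(i, j), h⟩
        else if h : j < i then - X ⟨(j, i), h⟩ else 0).submatrix r r)

/-- The form `∏ t, (∑_j y_{t,j} M_j(x)) ^ a t` with integral coefficients. -/
noncomputable def formZ (S : MSpace) {T : ℕ} (p a : Fin T → ℕ) :
    MvPolynomial ((Σ t, S.Idx (p t)) ⊕ S.Var) ℤ :=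
  ∏ t, (∑ j, X (Sum.inl ⟨t, j⟩) * rename Sum.inr (S.minorsZ (p t) j)) ^ a t

theorem map_minorsZ (S : MSpace) (k : ℕ) (j : S.Idx k) :
    map (Int.castRingHom ℂ) (S.minorsZ k j) = S.minors k j := by
  cases S with
  | gen m n =>
    change map (Int.castRingHom ℂ) ((Matrix.of fun (i : Fin m) (j : Fin n) =>
      (X (i, j) : MvPolynomial (Fin m × Fin n) ℤ)).submatrix j.1 j.2).det = _
    rw [RingHom.map_det]
    congr 1
    ext1 x y
    exact map_X _ _
  | sym n =>
    change map (Int.castRingHom ℂ) ((Matrix.of fun (i j : Fin n) =>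
      (X s(i, j) : MvPolynomial (Sym2 (Fin n)) ℤ)).submatrix j.1 j.2).det = _
    rw [RingHom.map_det]
    congr 1
    ext1 x y
    exact map_X _ _
  | skew n =>
    change map (Int.castRingHom ℂ) (Pool.Agent.Helper929.pf (2 * k) _) =
      Pool.Agent.Helper929.pf (2 * k) _
    rw [Pool.Agent.Helper929.pf_map]
    congr 1
    ext1 x y
    simp only [Matrix.map_apply, Matrix.submatrix_apply, Matrix.of_apply, skewMatrix]
    split_ifs
    · exact map_X _ _
    · rw [map_neg]
      exact congrArg Neg.neg (map_X _ _)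
    · exact map_zero _

theorem map_formZ (S : MSpace) {T : ℕ} (p a : Fin T → ℕ) :
    map (Int.castRingHom ℂ) (S.formZ p a) = S.form p a := by
  unfold formZ form powProd blockForm
  rw [map_prod]
  refine Finset.prod_congr rfl fun t _ => ?_
  rw [map_pow, map_sum]
  congr 1
  refine Finset.sum_congr rfl fun j _ => ?_
  rw [map_mul, map_X, map_rename, map_minorsZ]

theorem idx_nonempty (S : MSpace) (k : ℕ) (h : S.Small k) : Nonempty (S.Idx k) := by
  cases S with
  | gen m n => exact ⟨(Fin.castLEOrderEmb h.1.le, Fin.castLEOrderEmb h.2.le)⟩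
  | sym n => exact ⟨(Fin.castLEOrderEmb (Nat.le_of_lt h), Fin.castLEOrderEmb (Nat.le_of_lt h))⟩
  | skew n =>
    have h' : 2 * k + 1 < n := h
    exact ⟨Fin.castLEOrderEmb (by omega : 2 * k ≤ n)⟩

end Pool.Agent.TH192.DT.MSpace

namespace Pool.Agent.TH192.PA

open Matrix Pool.Agent.W427.SMC Pool.Agent.TH192.DT MeasureTheory MvPolynomial
open scoped NNReal ENNReal

attribute [local instance] msZ bsZ

variable {q : ℕ} [Fact q.Prime]

/-- the maximal norm of the minors of size `k` -/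
noncomputable def nS (S : MSpace) (k : ℕ) (x : S.Var → ℤ_[q]) : ℝ≥0 :=
  Finset.univ.sup fun j : S.Idx k => ‖aeval x (S.minorsZ k j)‖₊

theorem nS_gen (m n k : ℕ) (x : Fin m × Fin n → ℤ_[q]) :
    (mn (1 * k) (genM x)) ^ (((1 : ℕ) : ℝ)⁻¹) = nS (MSpace.gen m n) k x := by
  rw [Nat.cast_one, inv_one, NNReal.rpow_one, one_mul, mn_eq_sup]
  refine Finset.sup_congr rfl fun j _ => ?_
  congr 1
  change _ = aeval x ((Matrix.of fun (i : Fin m) (j : Fin n) =>
      (X (i, j) : MvPolynomial (Fin m × Fin n) ℤ)).submatrix j.1 j.2).det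
  rw [minorsOf, AlgHom.map_det]
  congr 1
  ext1 a b
  exact (aeval_X x _).symm

theorem nS_sym (n k : ℕ) (x : Sym2 (Fin n) → ℤ_[q]) :
    (mn (1 * k) (symM x)) ^ (((1 : ℕ) : ℝ)⁻¹) = nS (MSpace.sym n) k x := by
  rw [Nat.cast_one, inv_one, NNReal.rpow_one, one_mul, mn_eq_sup]
  refine Finset.sup_congr rfl fun j _ => ?_
  congr 1
  change _ = aeval x ((Matrix.of fun (i j : Fin n) =>
      (X s(i, j) : MvPolynomial (Sym2 (Fin n)) ℤ)).submatrix j.1 j.2).det
  rw [minorsOf, AlgHom.map_det]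
  congr 1
  ext1 a b
  exact (aeval_X x _).symm

theorem nS_skew (n k : ℕ) (x : {q : Fin n × Fin n // q.1 < q.2} → ℤ_[q]) :
    (mn (2 * k) (skewM x)) ^ (((2 : ℕ) : ℝ)⁻¹) = nS (MSpace.skew n) k x := by
  rw [mn_eq_pf _ (skewM_skew x), NNReal.pow_rpow_inv_natCast _ two_ne_zero]
  refine Finset.sup_congr rfl fun j _ => ?_
  congr 1
  change _ = (aeval x : MvPolynomial {q : Fin n × Fin n // q.1 < q.2} ℤ →ₐ[ℤ] ℤ_[q]).toRingHom
    (Pool.Agent.Helper929.pf (2 * k)
      ((Matrix.of fun (i j : Fin n) => if h : i < j then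
        (X ⟨(i, j), h⟩ : MvPolynomial {q : Fin n × Fin n // q.1 < q.2} ℤ)
        else if h : j < i then - X ⟨(j, i), h⟩ else 0).submatrix (j : Fin (2 * k) ↪o Fin n)
          (j : Fin (2 * k) ↪o Fin n)))
  rw [Pool.Agent.Helper929.pf_map]
  congr 1
  ext1 a b
  simp only [skewM, Matrix.map_apply, Matrix.submatrix_apply, Matrix.of_apply]
  split_ifs
  · exact (aeval_X x _).symm
  · rw [map_neg]
    congr 1
    exact (aeval_X x _).symm
  · exact (map_zero _).symm

/-- the integral of the norms of the minors -/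
theorem int_norms (S : MSpace) (T : ℕ) (p a : Fin T → ℕ) (hp : ∀ t, S.Small (p t)) :
    ∃ P : Polynomial ℝ, ∀ s : ℝ, 0 < s →
      (Dd q S.codim (fun d => ∑ t, a t * (p t - d)) S.rk 0).eval (tr' q s) *
        (∫⁻ x : S.Var → ℤ_[q], ∏ t, ((nS S (p t) x : ℝ≥0) : ℝ≥0∞) ^ ((a t : ℝ) * s)
          ∂(hm q S.Var)).toReal = P.eval (tr' q s) := by
  cases S with
  | gen m n =>
    obtain ⟨P, hP⟩ := tower_GG (T := T) (tower_gen (p := q) m n m 0 (Fin m) (Fin n)
      (Fintype.card_fin m) (by rw [Fintype.card_fin, Nat.sub_zero])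
      (by rw [Fintype.card_fin, Nat.sub_zero])) (min m n) p a (fun d' hd' => by
        refine Finset.sum_eq_zero fun t _ => ?_
        have h1 : p t < m := (hp t).1
        have h2 : p t < n := (hp t).2
        rw [Nat.sub_eq_zero_of_le (by omega), Nat.mul_zero])
    refine ⟨P, fun s hs => ?_⟩
    rw [← hP s hs]
    congr 2
    refine lintegral_congr fun x => ?_
    refine Finset.prod_congr rfl fun t _ => ?_
    congr 2
    exact (nS_gen m n (p t) x).symm
  | sym n =>
    obtain ⟨P, hP⟩ := tower_GG (T := T) (tower_sym (p := q) n n 0 (Fin n)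
      (Fintype.card_fin n) (by rw [Fintype.card_fin, Nat.sub_zero])) n p a (fun d' hd' => by
        refine Finset.sum_eq_zero fun t _ => ?_
        have h1 : p t < n := hp t
        rw [Nat.sub_eq_zero_of_le (by omega), Nat.mul_zero])
    refine ⟨P, fun s hs => ?_⟩
    rw [← hP s hs]
    congr 2
    refine lintegral_congr fun x => ?_
    refine Finset.prod_congr rfl fun t _ => ?_
    congr 2
    exact (nS_sym n (p t) x).symm
  | skew n =>
    obtain ⟨P, hP⟩ := tower_GG (T := T) (tower_skew (p := q) n n 0 (Fin n)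
      (Fintype.card_fin n) (by rw [Fintype.card_fin, Nat.mul_zero, Nat.sub_zero])) (n / 2) p a
      (fun d' hd' => by
        refine Finset.sum_eq_zero fun t _ => ?_
        have h1 : 2 * p t + 1 < n := hp t
        rw [Nat.sub_eq_zero_of_le (by omega), Nat.mul_zero])
    refine ⟨P, fun s hs => ?_⟩
    rw [← hP s hs]
    congr 2
    refine lintegral_congr fun x => ?_
    refine Finset.prod_congr rfl fun t _ => ?_
    congr 2
    exact (nS_skew n (p t) x).symm

theorem aeval_formZ (S : MSpace) {T : ℕ} (p a : Fin T → ℕ)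
    (z : (Σ t, S.Idx (p t)) ⊕ S.Var → ℤ_[q]) : aeval z (S.formZ p a) =
      ∏ t, (∑ j, z (Sum.inl ⟨t, j⟩) * aeval (z ∘ Sum.inr) (S.minorsZ (p t) j)) ^ a t := by
  unfold MSpace.formZ
  rw [map_prod]
  refine Finset.prod_congr rfl fun t _ => ?_
  rw [map_pow, map_sum]
  congr 1
  refine Finset.sum_congr rfl fun j _ => ?_
  rw [map_mul, aeval_X, aeval_rename]

theorem tau_pow' (s : ℝ) (x : ℤ_[q]) (n : ℕ) : tau q s (x ^ n) = tau q ((n : ℝ) * s) x := by
  unfold tau
  rw [norm_pow, ← Real.rpow_natCast, ← Real.rpow_mul (norm_nonneg _)]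

/-- **The zeta function of the form.** -/
theorem igusa_eq (S : MSpace) {T : ℕ} (p a : Fin T → ℕ) (hp : ∀ t, S.Small (p t)) (s : ℝ)
    (hs : 0 < s) : ∫⁻ z : (Σ t, S.Idx (p t)) ⊕ S.Var → ℤ_[q], tau q s (aeval z (S.formZ p a))
        ∂(hm q ((Σ t, S.Idx (p t)) ⊕ S.Var)) =
      (∫⁻ x : S.Var → ℤ_[q], ∏ t, ((nS S (p t) x : ℝ≥0) : ℝ≥0∞) ^ ((a t : ℝ) * s)
          ∂(hm q S.Var)) * ∏ t, phi q ((a t : ℝ) * s) := by
  classical
  have hc : Continuous fun z : (Σ t, S.Idx (p t)) ⊕ S.Var → ℤ_[q] => aeval z (S.formZ p a) := by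
    have : (fun z : (Σ t, S.Idx (p t)) ⊕ S.Var → ℤ_[q] => aeval z (S.formZ p a)) =
        fun z => eval z (map (Int.castRingHom ℤ_[q]) (S.formZ p a)) := by
      funext z
      rw [aeval_def, eval_map]
      rfl
    rw [this]
    exact MvPolynomial.continuous_eval _
  have hmz : Measurable fun z : (Σ t, S.Idx (p t)) ⊕ S.Var → ℤ_[q] =>
      tau q s (aeval z (S.formZ p a)) := ((tau_cont q s hs.le).comp hc).measurable
  rw [lintegral_sum q _ hmz]
  have h1 : ∀ x : S.Var → ℤ_[q], ∫⁻ y : (Σ t, S.Idx (p t)) → ℤ_[q],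
      tau q s (aeval (Sum.elim y x) (S.formZ p a)) ∂(hm q (Σ t, S.Idx (p t))) =
      (∏ t, ((nS S (p t) x : ℝ≥0) : ℝ≥0∞) ^ ((a t : ℝ) * s)) * ∏ t, phi q ((a t : ℝ) * s) := by
    intro x
    have h2 := y_int q (fun t j => aeval x (S.minorsZ (p t) j))
      (fun t => S.idx_nonempty (p t) (hp t)) (fun t => (a t : ℝ) * s) (fun t => by positivity)
    rw [← Finset.prod_mul_distrib]
    refine Eq.trans (lintegral_congr fun y => ?_) h2
    rw [aeval_formZ, tau_prod]
    refine Finset.prod_congr rfl fun t _ => ?_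
    rw [tau_pow']
    rfl
  have h3 : ∀ x : S.Var → ℤ_[q], ∫⁻ y : (Σ t, S.Idx (p t)) → ℤ_[q],
      (fun z : (Σ t, S.Idx (p t)) ⊕ S.Var → ℤ_[q] => tau q s (aeval z (S.formZ p a)))
        (Sum.elim y x) ∂(hm q (Σ t, S.Idx (p t))) = _ := h1
  have h4 : Measurable fun x : S.Var → ℤ_[q] =>
      ∏ t, ((nS S (p t) x : ℝ≥0) : ℝ≥0∞) ^ ((a t : ℝ) * s) := by
    refine Finset.measurable_prod _ fun t _ => ?_
    refine (measurable_coe_nnreal_ennreal.comp ?_).pow_const _
    refine Continuous.measurable ?_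
    unfold nS
    refine Continuous.finset_sup_apply fun j _ => ?_
    have : (fun x : S.Var → ℤ_[q] => aeval x (S.minorsZ (p t) j)) =
        fun z => eval z (map (Int.castRingHom ℤ_[q]) (S.minorsZ (p t) j)) := by
      funext z
      rw [aeval_def, eval_map]
      rfl
    have h5 : Continuous fun x : S.Var → ℤ_[q] => aeval x (S.minorsZ (p t) j) := by
      rw [this]
      exact MvPolynomial.continuous_eval _
    exact h5.nnnorm
  rw [lintegral_congr h3, lintegral_mul_const _ h4]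

end Pool.Agent.TH192.PA
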