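import Mathlib

set_option autoImplicit false
set_option linter.unusedSectionVars false
set_option linter.unusedVariables false

/-! # The ideals of minors and Schur complements -/

namespace Pool.Agent.TH192.PA

open Matrix

section

variable {R : Type} [CommRing R] {I J I' J' : Type}

/-- The ideal of the `k`-minors of a matrix. -/
def minI (k : ℕ) (Y : Matrix I J R) : Ideal R :=
  Ideal.span (Set.range fun rc : (Fin k → I) × (Fin k → J) => (Y.submatrix rc.1 rc.2).det)

theorem det_mem {k : ℕ} (Y : Matrix I J R) (r : Fin k → I) (c : Fin k → J) :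
    (Y.submatrix r c).det ∈ minI k Y := Ideal.subset_span ⟨(r, c), rfl⟩

theorem det_mem' {P : Type} [Fintype P] [DecidableEq P] {k : ℕ} (e : Fin k ≃ P)
    (Y : Matrix I J R) (r : P → I) (c : P → J) : (Y.submatrix r c).det ∈ minI k Y := by
  have h1 : (Y.submatrix (r ∘ e) (c ∘ e)).det = (Y.submatrix r c).det := by
    rw [← Matrix.submatrix_submatrix, Matrix.det_submatrix_equiv_self]
  rw [← h1]
  exact det_mem Y _ _

theorem minI_le {k : ℕ} {Y : Matrix I J R} {A : Ideal R}
    (h : ∀ (r : Fin k → I) (c : Fin k → J), (Y.submatrix r c).det ∈ A) : minI k Y ≤ A :=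
  Ideal.span_le.2 (by rintro _ ⟨rc, rfl⟩; exact h rc.1 rc.2)

theorem minI_submatrix_le {k : ℕ} (Y : Matrix I J R) (e1 : I' → I) (e2 : J' → J) :
    minI k (Y.submatrix e1 e2) ≤ minI k Y :=
  minI_le fun r c => by
    rw [Matrix.submatrix_submatrix]
    exact det_mem Y _ _

theorem minI_reindex {k : ℕ} (Y : Matrix I J R) (e1 : I' ≃ I) (e2 : J' ≃ J) :
    minI k (Y.submatrix e1 e2) = minI k Y := by
  refine le_antisymm (minI_submatrix_le Y e1 e2) ?_
  have h1 := minI_submatrix_le (k := k) (Y.submatrix e1 e2) e1.symm e2.symm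
  rw [Matrix.submatrix_submatrix] at h1
  have h2 : Y.submatrix (e1 ∘ e1.symm) (e2 ∘ e2.symm) = Y := by
    ext i j
    simp
  rwa [h2] at h1

theorem minI_zero (Y : Matrix I J R) : minI 0 Y = ⊤ := by
  rw [Ideal.eq_top_iff_one]
  have h1 := det_mem Y (Fin.elim0 : Fin 0 → I) (Fin.elim0 : Fin 0 → J)
  rwa [Matrix.det_isEmpty] at h1

theorem minI_smul {k : ℕ} (x : R) (Y : Matrix I J R) :
    minI k (x • Y) = Ideal.span {x ^ k} * minI k Y := by
  have h1 : ∀ rc : (Fin k → I) × (Fin k → J), ((x • Y).submatrix rc.1 rc.2).det =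
      x ^ k * (Y.submatrix rc.1 rc.2).det := by
    intro rc
    have h2 : (x • Y).submatrix rc.1 rc.2 = x • Y.submatrix rc.1 rc.2 := rfl
    rw [h2, Matrix.det_smul, Fintype.card_fin]
  refine le_antisymm (minI_le fun r c => ?_) ?_
  · rw [h1 (r, c)]
    exact Ideal.mul_mem_mul (Ideal.mem_span_singleton_self _) (det_mem Y r c)
  · rw [minI, Ideal.span_mul_span', Ideal.span_le]
    rintro _ ⟨a, ha, b, ⟨rc, rfl⟩, rfl⟩
    rw [Set.mem_singleton_iff] at ha
    subst ha
    change x ^ k * (Y.submatrix rc.1 rc.2).det ∈ _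
    rw [← h1 rc]
    exact det_mem _ _ _

theorem minI_transpose_le {k : ℕ} (Y : Matrix I J R) : minI k Y.transpose ≤ minI k Y :=
  minI_le fun r c => by
    rw [← Matrix.transpose_submatrix, Matrix.det_transpose]
    exact det_mem Y _ _

theorem minI_transpose {k : ℕ} (Y : Matrix I J R) : minI k Y.transpose = minI k Y :=
  le_antisymm (minI_transpose_le Y) (minI_transpose_le Y.transpose)

theorem minI_mul_le {k : ℕ} [Fintype I] (U : Matrix I' I R) (Y : Matrix I J R) :
    minI k (U * Y) ≤ minI k Y := by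
  classical
  refine minI_le fun r c => ?_
  have h1 : ((U * Y).submatrix r c).det =
      ∑ f : Fin k → I, (∏ i, U (r i) (f i)) * (Y.submatrix f c).det := by
    have h2 : ((U * Y).submatrix r c) =
        fun i => ∑ a : I, U (r i) a • fun j => Y a (c j) := by
      ext i j
      simp [Matrix.mul_apply, Finset.sum_apply]
    have h3 := (Matrix.detRowAlternating (n := Fin k) (R := R)).toMultilinearMap.map_sum
      (fun (i : Fin k) (a : I) => U (r i) a • fun j => Y a (c j))
    have h4 : ((U * Y).submatrix r c).det = (Matrix.detRowAlternating (n := Fin k)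
        (R := R)).toMultilinearMap (fun i => ∑ a : I, U (r i) a • fun j => Y a (c j)) := by
      rw [h2]; rfl
    rw [h4, h3]
    refine Finset.sum_congr rfl fun f _ => ?_
    rw [MultilinearMap.map_smul_univ]
    rfl
  rw [h1]
  exact Ideal.sum_mem _ fun f _ => Ideal.mul_mem_left _ _ (det_mem Y f c)

theorem minI_mul_le' {k : ℕ} [Fintype J] (Y : Matrix I J R) (V : Matrix J J' R) :
    minI k (Y * V) ≤ minI k Y := by
  rw [← minI_transpose, Matrix.transpose_mul, ← minI_transpose Y]
  exact minI_mul_le _ _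

theorem minI_succ_le {k : ℕ} (Y : Matrix I J R) : minI (k + 1) Y ≤ minI k Y := by
  refine minI_le fun r c => ?_
  rw [Matrix.det_succ_row _ 0]
  exact Ideal.sum_mem _ fun j _ => Ideal.mul_mem_left _ _ (by
    rw [Matrix.submatrix_submatrix]
    exact det_mem Y _ _)

theorem minI_anti {k l : ℕ} (h : k ≤ l) (Y : Matrix I J R) : minI l Y ≤ minI k Y := by
  induction l, h using Nat.le_induction with
  | base => exact le_rfl
  | succ n _ ih => exact (minI_succ_le Y).trans ih

/-- adding a row and a column -/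
theorem minI_cons {k : ℕ} (S : Matrix I J R) :
    minI (k + 1) (Matrix.fromBlocks (1 : Matrix Unit Unit R) 0 0 S) ≤ minI k S := by
  classical
  set Y := Matrix.fromBlocks (1 : Matrix Unit Unit R) 0 0 S with hY
  -- rows without the first one
  have key : ∀ {l : ℕ} (r : Fin l → Unit ⊕ I) (c : Fin l → Unit ⊕ J), (∀ x, ∃ i, r x = Sum.inr i) →
      (Y.submatrix r c).det ∈ minI l S := by
    intro l r c hr
    choose r' hr' using hr
    by_cases hc : ∀ y, ∃ j, c y = Sum.inr j
    · choose c' hc' using hc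
      have h1 : Y.submatrix r c = S.submatrix r' c' := by
        ext x y
        simp [hY, hr', hc']
      rw [h1]
      exact det_mem _ _ _
    · push Not at hc
      obtain ⟨y, hy⟩ := hc
      have h2 : c y = Sum.inl () := by
        rcases h : c y with u | j
        · rfl
        · exact absurd h (hy j)
      rw [Matrix.det_eq_zero_of_column_eq_zero y]
      · exact Ideal.zero_mem _
      · intro x
        simp [hY, hr', h2]
  refine minI_le fun r c => ?_
  by_cases h0 : ∀ x, ∃ i, r x = Sum.inr i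
  · exact minI_succ_le S (key r c h0)
  · push Not at h0
    obtain ⟨x0, hx0⟩ := h0
    have h2 : r x0 = Sum.inl () := by
      rcases h : r x0 with u | j
      · rfl
      · exact absurd h (hx0 j)
    by_cases h3 : ∀ x, x ≠ x0 → ∃ i, r x = Sum.inr i
    · rw [Matrix.det_succ_row _ x0]
      refine Ideal.sum_mem _ fun j _ => Ideal.mul_mem_left _ _ ?_
      rw [Matrix.submatrix_submatrix]
      refine key _ _ fun x => ?_
      exact h3 _ (Fin.succAbove_ne x0 x)
    · push Not at h3
      obtain ⟨x, hx, hx'⟩ := h3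
      have h4 : r x = Sum.inl () := by
        rcases h : r x with u | j
        · rfl
        · exact absurd h (hx' j)
      rw [Matrix.det_zero_of_row_eq hx]
      · exact Ideal.zero_mem _
      · funext y
        simp [h2, h4]

theorem minI_cons_fin {q : ℕ} (k : ℕ) (S : Matrix I J R) :
    minI (k + q) (Matrix.fromBlocks (1 : Matrix (Fin k) (Fin k) R) 0 0 S) ≤ minI q S := by
  induction k with
  | zero =>
    rw [Nat.zero_add]
    have h1 : Matrix.fromBlocks (1 : Matrix (Fin 0) (Fin 0) R) 0 0 S =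
        S.submatrix (Equiv.emptySum (Fin 0) I) (Equiv.emptySum (Fin 0) J) := by
      ext x y
      rcases x with x | x
      · exact x.elim0
      · rcases y with y | y
        · exact y.elim0
        · simp [Equiv.emptySum]
    rw [h1, minI_reindex]
  | succ k ih =>
    have e1 : ∀ A : Type, ∃ e : Unit ⊕ (Fin k ⊕ A) ≃ Fin (k + 1) ⊕ A,
        e (Sum.inl ()) = Sum.inl 0 ∧ (∀ i, e (Sum.inr (Sum.inl i)) = Sum.inl (Fin.succ i)) ∧
          ∀ a, e (Sum.inr (Sum.inr a)) = Sum.inr a := by
      intro A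
      refine ⟨⟨fun x => match x with
        | Sum.inl _ => Sum.inl 0
        | Sum.inr (Sum.inl i) => Sum.inl (Fin.succ i)
        | Sum.inr (Sum.inr a) => Sum.inr a,
        fun x => match x with
        | Sum.inl i => Fin.cases (Sum.inl ()) (fun i => Sum.inr (Sum.inl i)) i
        | Sum.inr a => Sum.inr (Sum.inr a), ?_, ?_⟩, rfl, fun _ => rfl, fun _ => rfl⟩
      · rintro (u | (i | a))
        · rfl
        · rfl
        · rfl
      · rintro (i | a)
        · refine Fin.cases ?_ (fun i => ?_) i <;> rfl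
        · rfl
    obtain ⟨f, hf0, hf1, hf2⟩ := e1 I
    obtain ⟨g, hg0, hg1, hg2⟩ := e1 J
    have h1 : (Matrix.fromBlocks (1 : Matrix (Fin (k + 1)) (Fin (k + 1)) R) 0 0 S).submatrix f g =
        Matrix.fromBlocks (1 : Matrix Unit Unit R) 0 0
          (Matrix.fromBlocks (1 : Matrix (Fin k) (Fin k) R) 0 0 S) := by
      ext x y
      rcases x with x | (x | x) <;> rcases y with y | (y | y)
      · simp [hf0, hg0]
      · simp [hf0, hg1, (Fin.succ_ne_zero y).symm]
      · simp [hf0, hg2]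
      · simp [hf1, hg0, Fin.succ_ne_zero]
      · simp [hf1, hg1, Matrix.one_apply]
      · simp [hf1, hg2]
      · simp [hf2, hg0]
      · simp [hf2, hg1]
      · simp [hf2, hg2]
    have h2 : k + 1 + q = (k + q) + 1 := by ring
    rw [← minI_reindex _ f g, h1, h2]
    exact (minI_cons _).trans ih

/-- The Schur complement. -/
noncomputable def schur {k : ℕ} (Y : Matrix I J R) (e1 : Fin k ⊕ I' → I) (e2 : Fin k ⊕ J' → J) :
    Matrix I' J' R :=
  Y.submatrix (e1 ∘ Sum.inr) (e2 ∘ Sum.inr) - Y.submatrix (e1 ∘ Sum.inr) (e2 ∘ Sum.inl) *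
    (Y.submatrix (e1 ∘ Sum.inl) (e2 ∘ Sum.inl))⁻¹ * Y.submatrix (e1 ∘ Sum.inl) (e2 ∘ Sum.inr)

/-- The pivot block. -/
def piv {k : ℕ} (Y : Matrix I J R) (e1 : Fin k ⊕ I' → I) (e2 : Fin k ⊕ J' → J) :
    Matrix (Fin k) (Fin k) R := Y.submatrix (e1 ∘ Sum.inl) (e2 ∘ Sum.inl)

theorem blocks_eq {k : ℕ} (Y : Matrix I J R) (e1 : Fin k ⊕ I' → I) (e2 : Fin k ⊕ J' → J) :
    Y.submatrix e1 e2 = Matrix.fromBlocks (piv Y e1 e2)
      (Y.submatrix (e1 ∘ Sum.inl) (e2 ∘ Sum.inr)) (Y.submatrix (e1 ∘ Sum.inr) (e2 ∘ Sum.inl))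
      (Y.submatrix (e1 ∘ Sum.inr) (e2 ∘ Sum.inr)) := by
  ext x y
  rcases x with x | x <;> rcases y with y | y <;> rfl

/-- a minor of the Schur complement is a minor of the matrix -/
theorem det_schur {k q : ℕ} (Y : Matrix I J R) (e1 : Fin k ⊕ I' → I) (e2 : Fin k ⊕ J' → J)
    (hA : IsUnit (piv Y e1 e2).det) (r : Fin q → I') (c : Fin q → J') :
    (Y.submatrix (e1 ∘ Sum.map id r) (e2 ∘ Sum.map id c)).det =
      (piv Y e1 e2).det * ((schur Y e1 e2).submatrix r c).det := by
  have := Matrix.invertibleOfIsUnitDet _ hA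
  have h1 : Y.submatrix (e1 ∘ Sum.map id r) (e2 ∘ Sum.map id c) =
      Matrix.fromBlocks (piv Y e1 e2)
      (Y.submatrix (e1 ∘ Sum.inl) (e2 ∘ Sum.inr ∘ c))
      (Y.submatrix (e1 ∘ Sum.inr ∘ r) (e2 ∘ Sum.inl))
      (Y.submatrix (e1 ∘ Sum.inr ∘ r) (e2 ∘ Sum.inr ∘ c)) := by
    ext x y
    rcases x with x | x <;> rcases y with y | y <;> rfl
  rw [h1, Matrix.det_fromBlocks₁₁, Matrix.invOf_eq_nonsing_inv]
  rfl

/-- **The ideals of minors and the Schur complement.** -/
theorem minI_schur {k q : ℕ} [Fintype I'] [Fintype J'] (Y : Matrix I J R) (e1 : Fin k ⊕ I' ≃ I)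
    (e2 : Fin k ⊕ J' ≃ J) (hA : IsUnit (piv Y e1 e2).det) :
    minI (k + q) Y = minI q (schur Y e1 e2) := by
  classical
  refine le_antisymm ?_ (minI_le fun r c => ?_)
  · rw [← minI_reindex Y e1 e2, blocks_eq]
    set A := piv Y e1 e2
    set B := Y.submatrix (e1 ∘ Sum.inl) (e2 ∘ Sum.inr)
    set C := Y.submatrix (e1 ∘ Sum.inr) (e2 ∘ Sum.inl)
    set D := Y.submatrix (e1 ∘ Sum.inr) (e2 ∘ Sum.inr)
    have hS : schur Y e1 e2 = D - C * A⁻¹ * B := rfl
    have h1 : Matrix.fromBlocks A B C D =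
        Matrix.fromBlocks A (0 : Matrix (Fin k) I' R) C (1 : Matrix I' I' R) *
        (Matrix.fromBlocks (1 : Matrix (Fin k) (Fin k) R) (0 : Matrix (Fin k) J' R)
          (0 : Matrix I' (Fin k) R) (D - C * A⁻¹ * B) *
        Matrix.fromBlocks (1 : Matrix (Fin k) (Fin k) R) (A⁻¹ * B) (0 : Matrix J' (Fin k) R)
          (1 : Matrix J' J' R)) := by
      rw [Matrix.fromBlocks_multiply, Matrix.fromBlocks_multiply]
      simp only [Matrix.one_mul, Matrix.mul_one, Matrix.zero_mul, Matrix.mul_zero, add_zero,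
        zero_add]
      congr 1
      · rw [← Matrix.mul_assoc, Matrix.mul_nonsing_inv _ hA, Matrix.one_mul]
      · rw [Matrix.mul_assoc]
        abel
    rw [h1]
    refine (minI_mul_le _ _).trans ((minI_mul_le' _ _).trans ?_)
    exact minI_cons_fin k _
  · have h1 := det_schur Y e1 e2 hA r c
    have h2 : ((schur Y e1 e2).submatrix r c).det =
        Ring.inverse (piv Y e1 e2).det *
          (Y.submatrix (e1 ∘ Sum.map id r) (e2 ∘ Sum.map id c)).det := by
      rw [h1, ← mul_assoc, Ring.inverse_mul_cancel _ hA, one_mul]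
    rw [h2]
    refine Ideal.mul_mem_left _ _ (det_mem' (finSumFinEquiv.symm) Y _ _)

theorem minI_top {k q : ℕ} (hq : q ≤ k) (Y : Matrix I J R) (e1 : Fin k ⊕ I' → I)
    (e2 : Fin k ⊕ J' → J) (hA : IsUnit (piv Y e1 e2).det) : minI q Y = ⊤ := by
  refine top_le_iff.1 (le_trans ?_ (minI_anti hq Y))
  rw [top_le_iff]
  exact Ideal.eq_top_of_isUnit_mem _ (det_mem Y _ _) hA

end

end Pool.Agent.TH192.PA
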