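import Pool.Agent.TH192.PA.FormZ

set_option autoImplicit false
set_option linter.unusedSectionVars false
set_option linter.unusedVariables false

/-! # The poles of the zeta function -/

namespace Pool.Agent.TH192.PA

open Pool.Agent.W427.SMC Pool.Agent.TH192.DT MeasureTheory Polynomial
open scoped NNReal ENNReal

attribute [local instance] msZ bsZ

/-- The denominator. -/
noncomputable def Rc {ι : Type} [Fintype ι] (q : ℕ) (ν N : ι → ℕ) : ℂ[X] :=
  ∏ i, (C ((q ^ ν i : ℕ) : ℂ) - X ^ N i)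

theorem fac_ne (q ν N : ℕ) (hq : 1 < q) (hν : 0 < ν) :
    (C ((q ^ ν : ℕ) : ℂ) - X ^ N : ℂ[X]) ≠ 0 := by
  have h1 : 1 < q ^ ν := Nat.one_lt_pow hν.ne' hq
  rcases Nat.eq_zero_or_pos N with h | h
  · subst h
    rw [pow_zero, ← C_1, ← C_sub]
    intro h2
    have h3 := C_eq_zero.1 h2
    rw [sub_eq_zero] at h3
    have h4 : q ^ ν = 1 := by exact_mod_cast h3
    omega
  · exact cyc_ne (q ^ ν) N (by omega) h

theorem fac_rm (q ν N : ℕ) (hq : 1 < q) (hν : 0 < ν) (x : ℂ) :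
    (C ((q ^ ν : ℕ) : ℂ) - X ^ N : ℂ[X]).rootMultiplicity x ≤
      if 0 < N ∧ x ^ N = ((q ^ ν : ℕ) : ℂ) then 1 else 0 := by
  have h1 : 1 < q ^ ν := Nat.one_lt_pow hν.ne' hq
  rcases Nat.eq_zero_or_pos N with h | h
  · subst h
    rw [if_neg (by rintro ⟨h, _⟩; exact lt_irrefl _ h), pow_zero, ← C_1, ← C_sub,
      Polynomial.rootMultiplicity_C]
  · refine (cyc_rm (q ^ ν) N (by omega) h x).trans ?_
    by_cases h2 : x ^ N = ((q ^ ν : ℕ) : ℂ)
    · rw [if_pos h2, if_pos ⟨h, h2⟩]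
    · rw [if_neg h2]
      exact Nat.zero_le _

theorem norm_of_pow (q ν N : ℕ) (hq : 1 < q) (hN : 0 < N) (x : ℂ)
    (h : x ^ N = ((q ^ ν : ℕ) : ℂ)) : -Real.log ‖x‖ / Real.log q = -((ν : ℝ) / N) := by
  have h1 := congrArg (fun z : ℂ => Real.log ‖z‖) h
  simp only [norm_pow, Real.log_pow, Complex.norm_natCast, Nat.cast_pow] at h1
  have h2 : Real.log q ≠ 0 := (Real.log_pos (by exact_mod_cast hq)).ne'
  have h3 : (N : ℝ) ≠ 0 := by positivity
  field_simp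
  linarith

/-- the order of the root `x` of the denominator -/
theorem Rc_rm {ι : Type} [Fintype ι] (q : ℕ) (hq : 1 < q) (ν N : ι → ℕ) (hν : ∀ i, 0 < ν i)
    (x : ℂ) : (Rc q ν N).rootMultiplicity x ≤
      Nat.card {i // 0 < N i ∧ -Real.log ‖x‖ / Real.log q = -((ν i : ℝ) / N i)} := by
  classical
  unfold Rc
  rw [rm_prod _ _ (fun i _ => fac_ne q (ν i) (N i) hq (hν i))]
  rw [Nat.card_eq_fintype_card, Fintype.card_subtype, Finset.card_filter]
  refine Finset.sum_le_sum fun i _ => ?_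
  refine (fac_rm q (ν i) (N i) hq (hν i) x).trans ?_
  by_cases h : 0 < N i ∧ x ^ N i = ((q ^ ν i : ℕ) : ℂ)
  · rw [if_pos h, if_pos ⟨h.1, norm_of_pow q (ν i) (N i) hq h.1 x h.2⟩]
  · rw [if_neg h]
    exact Nat.zero_le _

theorem Rc_ne {ι : Type} [Fintype ι] (q : ℕ) (hq : 1 < q) (ν N : ι → ℕ) (hν : ∀ i, 0 < ν i) :
    Rc q ν N ≠ 0 := Finset.prod_ne_zero_iff.2 fun i _ => fac_ne q (ν i) (N i) hq (hν i)

variable {q : ℕ} [Fact q.Prime]

theorem hm_igusa {V : Type} [Fintype V] (f : MvPolynomial V ℤ) (s : ℝ) :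
    igusaZeta q f (s : ℂ) = ((∫⁻ z, tau q s (MvPolynomial.aeval z f) ∂(hm q V)).toReal : ℂ) :=
  igusaZeta_eq q f s

/-- **Rationality with the denominator of the resolution.** -/
theorem igusa_rat (S : MSpace) (T : ℕ) (p a : Fin T → ℕ) (hp : ∀ t, S.Small (p t)) :
    ∃ P : ℂ[X], ∀ s : ℝ, 0 < s → (Rc q (S.nu T) (mulN S.rk p a)).eval (pw q s) *
      igusaZeta q (S.formZ p a) s = P.eval (pw q s) := by
  have hq0 : (q : ℂ) ≠ 0 := by exact_mod_cast (Fact.out : q.Prime).ne_zero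
  obtain ⟨P, hP⟩ := int_norms (q := q) S T p a hp
  refine ⟨C (∏ d ∈ Finset.range S.rk, ((q ^ S.codim d : ℕ) : ℂ)) * P.map Complex.ofRealHom *
    C (∏ _t : Fin T, ((q : ℂ) - 1)), fun s hs => ?_⟩
  rw [hm_igusa, igusa_eq S p a hp s hs, ENNReal.toReal_mul, pw_real]
  set G : ℝ := (∫⁻ x : S.Var → ℤ_[q], ∏ t, ((nS S (p t) x : ℝ≥0) : ℝ≥0∞) ^ ((a t : ℝ) * s)
          ∂(hm q S.Var)).toReal with hG
  have h1 := congrArg (fun r : ℝ => (r : ℂ)) (hP s hs)
  have h2 : ((P.eval (tr' q s) : ℝ) : ℂ) = (P.map Complex.ofRealHom).eval ((tr' q s : ℝ) : ℂ) := by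
    rw [Polynomial.eval_map]
    exact (Polynomial.hom_eval₂ P (RingHom.id ℝ) Complex.ofRealHom (tr' q s)).symm ▸ rfl
  have h3 : (Rc q (S.nu T) (mulN S.rk p a)).eval ((tr' q s : ℝ) : ℂ) =
      (∏ d ∈ Finset.range S.rk, (((q ^ S.codim d : ℕ) : ℂ) -
        (tr' q s : ℂ) ^ (∑ t, a t * (p t - d)))) * ∏ t, ((q : ℂ) - (tr' q s : ℂ) ^ a t) := by
    unfold Rc
    rw [Fintype.prod_sum_type, eval_mul, eval_prod, eval_prod, Finset.prod_range]
    congr 1
    · refine Finset.prod_congr rfl fun d _ => ?_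
      rw [eval_sub, eval_C, eval_pow, eval_X]
      rfl
    · refine Finset.prod_congr rfl fun t _ => ?_
      rw [eval_sub, eval_C, eval_pow, eval_X]
      change ((q ^ 1 : ℕ) : ℂ) - _ = _
      rw [pow_one]
      rfl
  have h4 : (((Dd q S.codim (fun d => ∑ t, a t * (p t - d)) S.rk 0).eval (tr' q s) : ℝ) : ℂ) *
      (∏ d ∈ Finset.range S.rk, ((q ^ S.codim d : ℕ) : ℂ)) =
      ∏ d ∈ Finset.range S.rk, (((q ^ S.codim d : ℕ) : ℂ) -
        (tr' q s : ℂ) ^ (∑ t, a t * (p t - d))) := by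
    unfold Dd
    rw [eval_prod, Complex.ofReal_prod, Nat.Ico_zero_eq_range, ← Finset.prod_mul_distrib]
    refine Finset.prod_congr rfl fun d _ => ?_
    rw [eval_sub, eval_one, eval_mul, eval_C, eval_pow, eval_X]
    push_cast
    rw [inv_pow]
    have h5 : (q : ℂ) ^ S.codim d ≠ 0 := pow_ne_zero _ hq0
    field_simp
  have h6 : (∏ t, ((q : ℂ) - (tr' q s : ℂ) ^ a t)) *
      (((∏ t, phi q ((a t : ℝ) * s)).toReal : ℝ) : ℂ) = ∏ _t : Fin T, ((q : ℂ) - 1) := by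
    rw [ENNReal.toReal_prod, Complex.ofReal_prod, ← Finset.prod_mul_distrib]
    refine Finset.prod_congr rfl fun t _ => ?_
    have h7 := phi_eq q ((a t : ℝ) * s) (by positivity)
    have h8 : (q : ℝ) ^ (-((a t : ℝ) * s)) = tr' q s ^ a t := tr'_nat q s (a t)
    rw [h8] at h7
    have h9 := congrArg (fun r : ℝ => (r : ℂ)) h7
    simp only [Complex.ofReal_mul, Complex.ofReal_sub, Complex.ofReal_pow, Complex.ofReal_natCast,
      Complex.ofReal_one] at h9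
    exact h9
  rw [h3, eval_mul, eval_mul, eval_C, eval_C, ← h2, ← hP s hs, ← h4, ← h6]
  push_cast
  ring

/-- **The poles of the zeta function.** -/
theorem igusa_poles (S : MSpace) (T : ℕ) (p a : Fin T → ℕ) (hp : ∀ t, S.Small (p t))
    (g : ℂ → ℂ) (hg : MeromorphicOn g Set.univ)
    (h : ∀ s : ℂ, 0 < s.re → g s = igusaZeta q (S.formZ p a) s) (s0 : ℂ) :
    ((-(Nat.card {i // 0 < mulN S.rk p a i ∧
      s0.re = -((S.nu T i : ℝ) / mulN S.rk p a i)} : ℤ) : ℤ) : WithTop ℤ) ≤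
        meromorphicOrderAt g s0 := by
  obtain ⟨P, hP⟩ := igusa_rat (q := q) S T p a hp
  have hq1 : 1 < q := (Fact.out : q.Prime).one_lt
  have h1 := mero_bound q (Rc q (S.nu T) (mulN S.rk p a)) P (Rc_ne q hq1 _ _ (S.nu_pos T)) g hg
    (fun s hs => by rw [h s (by simpa using hs)]; exact hP s hs) s0
  refine le_trans ?_ h1
  rw [WithTop.coe_le_coe, neg_le_neg_iff]
  have h2 := Rc_rm q hq1 (S.nu T) (mulN S.rk p a) (S.nu_pos T) (pw q s0)
  rw [pw_norm] at h2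
  exact_mod_cast h2

/-- **Every pole gives a root.** -/
theorem igusa_root (S : MSpace) (T : ℕ) (p a : Fin T → ℕ) (hp : ∀ t, S.Small (p t))
    (g : ℂ → ℂ) (hg : MeromorphicOn g Set.univ)
    (h : ∀ s : ℂ, 0 < s.re → g s = igusaZeta q (S.formZ p a) s) (s0 : ℂ)
    (hs0 : meromorphicOrderAt g s0 < 0) (b : ℂ[X])
    (hb : Pool.Agent.H628R4.TP.IsBFunction (S.form p a) b) : b.eval (s0.re : ℂ) = 0 := by
  have h1 := lt_of_le_of_lt (igusa_poles (q := q) S T p a hp g hg h s0) hs0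
  have h2 : 0 < Nat.card {i // 0 < mulN S.rk p a i ∧
      s0.re = -((S.nu T i : ℝ) / mulN S.rk p a i)} := by
    have h3 : (-(Nat.card {i // 0 < mulN S.rk p a i ∧
      s0.re = -((S.nu T i : ℝ) / mulN S.rk p a i)} : ℤ) : ℤ) < 0 := by exact_mod_cast h1
    omega
  obtain ⟨⟨i, hi, hs⟩⟩ := (Nat.card_pos_iff.1 h2).1
  have h4 := S.roots_global T p a hp b hb i 0 hi
  rw [hs]
  rw [Nat.cast_zero, add_zero] at h4
  push_cast
  rw [← neg_div]
  exact h4

end Pool.Agent.TH192.PA
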