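import Pool.Agent.W427.SMC.Igusa

set_option autoImplicit false
set_option linter.unusedSectionVars false
set_option linter.unusedVariables false

/-! # Haar measure on `ℤ_p ^ ι`: uniqueness and self-similarity -/

namespace Pool.Agent.TH192.PA

open MeasureTheory Pool.Agent.W427.SMC
open scoped ENNReal NNReal

attribute [local instance] msZ bsZ

variable (p : ℕ) [Fact p.Prime]

/-- The Haar probability measure on `ℤ_p ^ ι`. -/
noncomputable abbrev hm (ι : Type) [Fintype ι] : Measure (ι → ℤ_[p]) := Measure.pi fun _ => mu p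

variable {ι κ : Type} [Fintype ι] [Fintype κ]

theorem hm_unique (ν : Measure (ι → ℤ_[p])) [IsProbabilityMeasure ν] [ν.IsAddLeftInvariant] :
    ν = hm p ι := by
  have h1 : ∀ (ν : Measure (ι → ℤ_[p])) [IsProbabilityMeasure ν] [ν.IsAddLeftInvariant],
      ν = Measure.addHaarMeasure (⊤ : TopologicalSpace.PositiveCompacts (ι → ℤ_[p])) := by
    intro ν _ _
    have h := Measure.addHaarMeasure_unique ν (⊤ : TopologicalSpace.PositiveCompacts (ι → ℤ_[p]))
    rw [h]
    have : ν ((⊤ : TopologicalSpace.PositiveCompacts (ι → ℤ_[p])) : Set (ι → ℤ_[p])) = 1 :=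
      measure_univ
    rw [this, one_smul]
  rw [h1 ν, h1 (hm p ι)]

/-- the image of the Haar measure under an equivariant map -/
theorem map_equivariant (Φ : (ι → ℤ_[p]) → (κ → ℤ_[p])) (h : (κ → ℤ_[p]) → (ι → ℤ_[p]))
    (hΦ : Measurable Φ) (he : ∀ z y, Φ (h y + z) = y + Φ z) :
    (hm p ι).map Φ = hm p κ := by
  have h1 : IsProbabilityMeasure ((hm p ι).map Φ) := Measure.isProbabilityMeasure_map hΦ.aemeasurable
  have h2 : ((hm p ι).map Φ).IsAddLeftInvariant := by
    refine ⟨fun y => ?_⟩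
    rw [Measure.map_map (measurable_const_add y) hΦ]
    have h3 : ((fun x => y + x) ∘ Φ) = Φ ∘ (fun z => h y + z) := by
      funext z
      exact (he z y).symm
    rw [h3, ← Measure.map_map hΦ (measurable_const_add (h y)), map_add_left_eq_self]
  exact hm_unique p _

theorem lintegral_equivariant (Φ : (ι → ℤ_[p]) → (κ → ℤ_[p])) (h : (κ → ℤ_[p]) → (ι → ℤ_[p]))
    (hΦ : Measurable Φ) (he : ∀ z y, Φ (h y + z) = y + Φ z) (g : (κ → ℤ_[p]) → ℝ≥0∞)
    (hg : Measurable g) : ∫⁻ z, g (Φ z) ∂(hm p ι) = ∫⁻ y, g y ∂(hm p κ) := by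
  rw [← map_equivariant p Φ h hΦ he, lintegral_map hg hΦ]

variable [DecidableEq ι]

/-- sum over the residue classes -/
noncomputable def smV (g : (ι → ℤ_[p]) → ℝ≥0∞) : ℝ≥0∞ :=
  ∑ w : ι → ZMod p, ((p : ℝ≥0∞)⁻¹) ^ Fintype.card ι *
    ∫⁻ z, g (fun i => ((w i).val : ℤ_[p]) + (p : ℤ_[p]) * z i) ∂(hm p ι)

theorem dvd_of_toZMod (x : ℤ_[p]) (h : PadicInt.toZMod x = 0) : (p : ℤ_[p]) ∣ x := by
  have h1 : x ∈ RingHom.ker (PadicInt.toZMod : ℤ_[p] →+* ZMod p) := h
  rw [PadicInt.ker_toZMod, PadicInt.maximalIdeal_eq_span_p, Ideal.mem_span_singleton] at h1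
  exact h1

theorem smV_trans (g : (ι → ℤ_[p]) → ℝ≥0∞) (t : ι → ℤ_[p]) :
    smV p (fun z => g (t + z)) = smV p g := by
  have hp : NeZero p := ⟨(Fact.out : p.Prime).ne_zero⟩
  unfold smV
  refine Fintype.sum_equiv (Equiv.addLeft (fun i => PadicInt.toZMod (t i))) _ _ fun w => ?_
  congr 1
  set w' : ι → ZMod p := (fun i => PadicInt.toZMod (t i)) + w with hw'
  have h1 : ∀ i, ∃ c, t i + ((w i).val : ℤ_[p]) - ((w' i).val : ℤ_[p]) = (p : ℤ_[p]) * c := by
    intro i
    obtain ⟨c, hc⟩ := dvd_of_toZMod p (t i + ((w i).val : ℤ_[p]) - ((w' i).val : ℤ_[p])) (by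
      rw [map_sub, map_add, map_natCast, map_natCast, ZMod.natCast_zmod_val,
        ZMod.natCast_zmod_val, hw', Pi.add_apply, sub_self])
    exact ⟨c, hc⟩
  choose c hc using h1
  have hw2 : (Equiv.addLeft fun i => PadicInt.toZMod (t i)) w = w' := rfl
  rw [hw2]
  rw [← lintegral_add_left_eq_self (μ := hm p ι)
    (fun z => g (fun i => ((w' i).val : ℤ_[p]) + (p : ℤ_[p]) * z i)) c]
  refine lintegral_congr fun z => ?_
  change g _ = g _
  congr 1
  funext i
  simp only [Pi.add_apply]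
  linear_combination hc i

theorem meas_affV (w : ι → ℤ_[p]) :
    Measurable (fun (z : ι → ℤ_[p]) (i : ι) => w i + (p : ℤ_[p]) * z i) := by
  refine Continuous.measurable ?_
  fun_prop

/-- **Self-similarity** of the Haar measure. -/
theorem lintegral_smV (g : (ι → ℤ_[p]) → ℝ≥0∞) (hg : Measurable g) :
    ∫⁻ z, g z ∂(hm p ι) = smV p g := by
  have hp : NeZero p := ⟨(Fact.out : p.Prime).ne_zero⟩
  set ν : Measure (ι → ℤ_[p]) := ((p : ℝ≥0∞)⁻¹) ^ Fintype.card ι • ∑ w : ι → ZMod p,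
    (hm p ι).map (fun (z : ι → ℤ_[p]) (i : ι) => ((w i).val : ℤ_[p]) + (p : ℤ_[p]) * z i) with hν
  have h1 : ∀ g : (ι → ℤ_[p]) → ℝ≥0∞, Measurable g → ∫⁻ z, g z ∂ν = smV p g := by
    intro g hg
    rw [hν, lintegral_smul_measure, lintegral_finsetSum_measure, smul_eq_mul, Finset.mul_sum]
    refine Finset.sum_congr rfl fun w _ => ?_
    rw [lintegral_map hg (meas_affV p _)]
  have hpr : IsProbabilityMeasure ν := by
    refine ⟨?_⟩
    have := h1 1 measurable_one
    simp only [Pi.one_apply, lintegral_one] at this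
    rw [this, smV]
    simp only [Pi.one_apply, lintegral_one, measure_univ, mul_one, Finset.sum_const,
      Finset.card_univ, Fintype.card_pi, ZMod.card, Finset.prod_const, nsmul_eq_mul]
    rw [Nat.cast_pow, ← mul_pow, ENNReal.mul_inv_cancel, one_pow]
    · exact_mod_cast (Fact.out : p.Prime).ne_zero
    · exact ENNReal.natCast_ne_top p
  have hinv : ν.IsAddLeftInvariant := by
    refine ⟨fun t => ?_⟩
    refine Measure.ext_of_lintegral _ fun g hg => ?_
    rw [lintegral_map hg (measurable_const_add t), h1 g hg]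
    exact (h1 _ (hg.comp (measurable_const_add t))).trans (smV_trans p g t)
  rw [← h1 g hg, hm_unique p ν]

/-- division by `p` -/
theorem exists_divp : ∃ f : ℤ_[p] → ℤ_[p], Measurable f ∧ ∀ x, f ((p : ℤ_[p]) * x) = x := by
  have hc : Continuous (fun x : ℤ_[p] => (p : ℤ_[p]) * x) := by fun_prop
  have hi : Function.Injective (fun x : ℤ_[p] => (p : ℤ_[p]) * x) := by
    intro x y h
    exact mul_left_cancel₀ (by exact_mod_cast (Fact.out : p.Prime).ne_zero) h
  have he : MeasurableEmbedding (fun x : ℤ_[p] => (p : ℤ_[p]) * x) :=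
    (hc.isClosedEmbedding hi).measurableEmbedding
  obtain ⟨g, hg, hg2⟩ := he.exists_measurable_extend measurable_id (fun _ => ⟨0⟩)
  exact ⟨g, hg, fun x => congrFun hg2 x⟩

end Pool.Agent.TH192.PA
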