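import Pool.Agent.TH192.PA.MinI

set_option autoImplicit false
set_option linter.unusedSectionVars false
set_option linter.unusedVariables false

/-! # The maximal norm of the minors of a `p`-adic matrix -/

namespace Pool.Agent.TH192.PA

open Matrix
open scoped NNReal

section

variable {p : ℕ} [Fact p.Prime] {I J I' J' : Type} [Fintype I] [Fintype J] [Fintype I'] [Fintype J']

/-- The maximum of the norms of the `k`-minors. -/
noncomputable def mn (k : ℕ) (Y : Matrix I J ℤ_[p]) : ℝ≥0 :=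
  Finset.univ.sup fun rc : (Fin k → I) × (Fin k → J) => ‖(Y.submatrix rc.1 rc.2).det‖₊

/-- The elements of norm at most `c`. -/
def ballI (p : ℕ) [Fact p.Prime] (c : ℝ≥0) : Ideal ℤ_[p] where
  carrier := {x | ‖x‖₊ ≤ c}
  add_mem' := by
    intro x y hx hy
    have h1 : ‖x + y‖ ≤ max ‖x‖ ‖y‖ := PadicInt.nonarchimedean x y
    have h2 : ‖x‖ ≤ c := hx
    have h3 : ‖y‖ ≤ c := hy
    exact h1.trans (max_le h2 h3)
  zero_mem' := by
    change ‖(0 : ℤ_[p])‖₊ ≤ c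
    rw [nnnorm_zero]
    exact zero_le
  smul_mem' := by
    intro a x hx
    have h1 : ‖a * x‖ = ‖a‖ * ‖x‖ := norm_mul a x
    have h2 : ‖x‖ ≤ c := hx
    have h3 : ‖a‖ ≤ 1 := PadicInt.norm_le_one a
    have h4 : ‖a * x‖ ≤ c := by
      rw [h1]
      exact (mul_le_of_le_one_left (norm_nonneg _) h3).trans h2
    exact h4

theorem le_mn {k : ℕ} (Y : Matrix I J ℤ_[p]) (r : Fin k → I) (c : Fin k → J) :
    ‖(Y.submatrix r c).det‖₊ ≤ mn k Y :=
  Finset.le_sup (f := fun rc : (Fin k → I) × (Fin k → J) => ‖(Y.submatrix rc.1 rc.2).det‖₊)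
    (Finset.mem_univ (r, c))

theorem mn_le {k : ℕ} {Y : Matrix I J ℤ_[p]} {x : ℝ≥0}
    (h : ∀ (r : Fin k → I) (c : Fin k → J), ‖(Y.submatrix r c).det‖₊ ≤ x) : mn k Y ≤ x :=
  Finset.sup_le fun rc _ => h rc.1 rc.2

theorem minI_le_ball {k : ℕ} (Y : Matrix I J ℤ_[p]) : minI k Y ≤ ballI p (mn k Y) :=
  minI_le fun r c => le_mn Y r c

theorem mem_le_mn {k : ℕ} {Y : Matrix I J ℤ_[p]} {x : ℤ_[p]} (hx : x ∈ minI k Y) :
    ‖x‖₊ ≤ mn k Y := minI_le_ball Y hx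

theorem mn_mono {k l : ℕ} {Y : Matrix I J ℤ_[p]} {Z : Matrix I' J' ℤ_[p]}
    (h : minI k Y ≤ minI l Z) : mn k Y ≤ mn l Z :=
  mn_le fun r c => mem_le_mn (h (det_mem Y r c))

theorem mn_congr {k l : ℕ} {Y : Matrix I J ℤ_[p]} {Z : Matrix I' J' ℤ_[p]}
    (h : minI k Y = minI l Z) : mn k Y = mn l Z :=
  le_antisymm (mn_mono h.le) (mn_mono h.ge)

theorem mn_le_one (k : ℕ) (Y : Matrix I J ℤ_[p]) : mn k Y ≤ 1 :=
  mn_le fun r c => PadicInt.norm_le_one _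

theorem mn_top {k : ℕ} {Y : Matrix I J ℤ_[p]} (h : minI k Y = ⊤) : mn k Y = 1 := by
  refine le_antisymm (mn_le_one k Y) ?_
  have h1 : (1 : ℤ_[p]) ∈ minI k Y := by rw [h]; trivial
  have h2 := mem_le_mn h1
  rwa [nnnorm_one] at h2

theorem mn_zero (Y : Matrix I J ℤ_[p]) : mn 0 Y = 1 := mn_top (minI_zero Y)

theorem mn_smul (k : ℕ) (x : ℤ_[p]) (Y : Matrix I J ℤ_[p]) :
    mn k (x • Y) = ‖x‖₊ ^ k * mn k Y := by
  unfold mn
  rw [NNReal.mul_finset_sup]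
  refine Finset.sup_congr rfl fun rc _ => ?_
  have h2 : (x • Y).submatrix rc.1 rc.2 = x • Y.submatrix rc.1 rc.2 := rfl
  rw [h2, Matrix.det_smul, Fintype.card_fin, nnnorm_mul, nnnorm_pow]

theorem mn_schur {k q : ℕ} (Y : Matrix I J ℤ_[p]) (e1 : Fin k ⊕ I' ≃ I)
    (e2 : Fin k ⊕ J' ≃ J) (hA : IsUnit (piv Y e1 e2).det) :
    mn q Y = mn (q - k) (schur Y e1 e2) := by
  rcases le_total q k with h | h
  · rw [Nat.sub_eq_zero_of_le h, mn_zero]
    exact mn_top (minI_top h Y e1 e2 hA)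
  · obtain ⟨l, rfl⟩ := Nat.exists_eq_add_of_le h
    rw [Nat.add_sub_cancel_left]
    exact mn_congr (minI_schur Y e1 e2 hA)

theorem continuous_mn (k : ℕ) : Continuous (mn k : Matrix I J ℤ_[p] → ℝ≥0) := by
  unfold mn
  refine Continuous.finset_sup_apply fun rc _ => ?_
  exact (Continuous.matrix_det (continuous_id.matrix_submatrix _ _)).nnnorm

end

end Pool.Agent.TH192.PA
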