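import Pool.Agent.TH192.PA.Final
import Pool.Agent.W425.PZ.Pole
import Pool.Agent.W195.PZ.Null

set_option autoImplicit false
set_option linter.unusedSectionVars false
set_option linter.unusedVariables false

/-! # The poles of the Poincaré series; orders of poles -/

namespace Pool.Agent.TH192.PA

open Pool.Agent.W427.SMC Pool.Agent.TH192.DT MeasureTheory Polynomial Filter
open Pool.Agent.W206.CU (dens IsPoleOfOrder)

variable {q : ℕ} [Fact q.Prime]

theorem null_gen {V : Type} [Fintype V] {F : MvPolynomial V ℤ} (hF : F ≠ 0) :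
    Tendsto (fun M => ((dens q F M : ℚ) : ℝ)) atTop (nhds 0) := by
  classical
  set e : MvPolynomial V ℤ ≃ₐ[ℤ] MvPolynomial (Fin (Fintype.card V)) ℤ :=
    MvPolynomial.renameEquiv ℤ (Fintype.equivFin V) with he
  have h1 : e F ≠ 0 := by
    intro h
    exact hF ((map_eq_zero_iff e e.injective).1 h)
  have h2 := Pool.Agent.W195.PZ.null (p := q) h1
  refine h2.congr fun M => ?_
  rw [Pool.Agent.W206.CU.dens_iso]

theorem formZ_ne (S : MSpace) {T : ℕ} (p a : Fin T → ℕ) (hp : ∀ t, S.Small (p t)) :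
    S.formZ p a ≠ 0 := by
  intro h
  have h1 := S.map_formZ p a
  rw [h, map_zero] at h1
  exact powProd_ne a (fun t => S.minors (p t)) (fun t => S.minors_ne (p t) (hp t)) h1.symm

/-- **Poles of the Poincaré series.** -/
theorem poincare_root (S : MSpace) (T : ℕ) (p a : Fin T → ℕ) (hp : ∀ t, S.Small (p t)) (T₀ : ℂ)
    (r : ℕ) (hr : 0 < r)
    (h : IsPoleOfOrder (Pool.Agent.W206.CU.poincare q (S.formZ p a)) T₀ r) (b : ℂ[X])
    (hb : Pool.Agent.H628R4.TP.IsBFunction (MvPolynomial.map (Int.castRingHom ℂ) (S.formZ p a)) b) :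
    b.eval ((-Real.log ‖T₀‖ / Real.log q : ℝ) : ℂ) = 0 := by
  obtain ⟨Z, s₀, hZ, hZi, hZo, hre⟩ := Pool.Agent.W425.PZ.pole_of_poincare q (S.formZ p a)
    (null_gen (formZ_ne S p a hp)) hr h
  rw [S.map_formZ] at hb
  have h1 := igusa_root (q := q) S T p a hp Z hZ hZi s₀ hZo b hb
  rwa [hre] at h1

/-- **Orders of poles.** -/
theorem igusa_order (S : MSpace) (T : ℕ) (p a : Fin T → ℕ) (hp : ∀ t, S.Small (p t))
    (g : ℂ → ℂ) (hg : MeromorphicOn g Set.univ)
    (h : ∀ s : ℂ, 0 < s.re → g s = igusaZeta q (S.formZ p a) s) (s0 : ℂ)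
    (hc : Nat.card {i // 0 < mulN S.rk p a i ∧
      s0.re = -((S.nu T i : ℝ) / mulN S.rk p a i)} ≤ 1) (b : ℂ[X]) (hb0 : b ≠ 0)
    (hb : Pool.Agent.H628R4.TP.IsBFunction (S.form p a) b) :
    ((-(b.rootMultiplicity ((s0.re : ℝ) : ℂ) : ℤ) : ℤ) : WithTop ℤ) ≤
      meromorphicOrderAt g s0 := by
  by_cases hs : meromorphicOrderAt g s0 < 0
  · refine le_trans ?_ (igusa_poles (q := q) S T p a hp g hg h s0)
    have h1 := igusa_root (q := q) S T p a hp g hg h s0 hs b hb
    have h2 : 0 < b.rootMultiplicity ((s0.re : ℝ) : ℂ) := (Polynomial.rootMultiplicity_pos hb0).2 h1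
    rw [WithTop.coe_le_coe]
    omega
  · refine le_trans ?_ (not_lt.1 hs)
    have : ((-(b.rootMultiplicity ((s0.re : ℝ) : ℂ) : ℤ) : ℤ) : WithTop ℤ) ≤ ((0 : ℤ) : WithTop ℤ) := by
      rw [WithTop.coe_le_coe]
      omega
    exact this

end Pool.Agent.TH192.PA
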