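import Pool.Agent.TH192.PA.Haar

set_option autoImplicit false
set_option linter.unusedSectionVars false
set_option linter.unusedVariables false

/-! # The integral over the variables `y` -/

namespace Pool.Agent.TH192.PA

open MeasureTheory Pool.Agent.W427.SMC
open scoped ENNReal NNReal

attribute [local instance] msZ bsZ

variable (p : ℕ) [Fact p.Prime]

theorem dvd_of_norm_le (x y : ℤ_[p]) (h : ‖x‖ ≤ ‖y‖) : y ∣ x := by
  by_cases hy : y = 0
  · subst hy
    rw [norm_zero] at h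
    rw [norm_le_zero_iff.1 h]
  · have hy' : (y : ℚ_[p]) ≠ 0 := by
      intro h1
      exact hy (Subtype.ext h1)
    have h1 : ‖(x : ℚ_[p]) / (y : ℚ_[p])‖ ≤ 1 := by
      rw [norm_div]
      refine div_le_one_of_le₀ ?_ (norm_nonneg _)
      exact h
    refine ⟨⟨(x : ℚ_[p]) / (y : ℚ_[p]), h1⟩, ?_⟩
    apply Subtype.ext
    change (x : ℚ_[p]) = (y : ℚ_[p]) * ((x : ℚ_[p]) / (y : ℚ_[p]))
    rw [mul_div_cancel₀ _ hy']

theorem tau_cont (σ : ℝ) (hσ : 0 ≤ σ) : Continuous (tau p σ) := by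
  unfold tau
  refine ENNReal.continuous_ofReal.comp ?_
  exact continuous_norm.rpow_const fun x => Or.inr hσ

theorem tau_eq (σ : ℝ) (hσ : 0 ≤ σ) (x : ℤ_[p]) : tau p σ x = ((‖x‖₊ : ℝ≥0) : ℝ≥0∞) ^ σ := by
  unfold tau
  rw [← ENNReal.ofReal_rpow_of_nonneg (norm_nonneg _) hσ]
  congr 1
  rw [ENNReal.ofReal]
  congr 1
  apply NNReal.coe_injective
  rw [Real.coe_toNNReal _ (norm_nonneg _), coe_nnnorm]

section

variable {τ : Type} [Fintype τ] [DecidableEq τ] {κ : τ → Type} [∀ t, Fintype (κ t)]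
  [∀ t, DecidableEq (κ t)]

/-- **The integral over the `y`.** -/
theorem y_int (g : (t : τ) → κ t → ℤ_[p]) (hκ : ∀ t, Nonempty (κ t)) (σ : τ → ℝ)
    (hσ : ∀ t, 0 ≤ σ t) :
    ∫⁻ y : (Σ t, κ t) → ℤ_[p], ∏ t, tau p (σ t) (∑ j, y ⟨t, j⟩ * g t j) ∂(hm p (Σ t, κ t)) =
      ∏ t, (((Finset.univ.sup fun j => ‖g t j‖₊ : ℝ≥0) : ℝ≥0∞) ^ σ t * phi p (σ t)) := by
  have hmax : ∀ t, ∃ j0, ∀ j, ‖g t j‖ ≤ ‖g t j0‖ := by
    intro t
    have := hκ t
    obtain ⟨j0, _, h⟩ := Finset.exists_max_image Finset.univ (fun j => ‖g t j‖)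
      Finset.univ_nonempty
    exact ⟨j0, fun j => h j (Finset.mem_univ j)⟩
  choose j0 hj0 using hmax
  have hd : ∀ t j, ∃ c, g t j = g t (j0 t) * c := fun t j => dvd_of_norm_le p _ _ (hj0 t j)
  choose c hc using hd
  have hsup : ∀ t, (Finset.univ.sup fun j => ‖g t j‖₊) = ‖g t (j0 t)‖₊ := fun t =>
    le_antisymm (Finset.sup_le fun j _ => hj0 t j)
      (Finset.le_sup (f := fun j => ‖g t j‖₊) (Finset.mem_univ _))
  have h1 := lintegral_prod_avg p (fun t => (⟨t, j0 t⟩ : Σ t, κ t))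
    (fun t (y : (Σ t, κ t) → ℤ_[p]) => tau p (σ t) (∑ j, y ⟨t, j⟩ * g t j))
    (fun t => by
      refine ((tau_cont p (σ t) (hσ t)).comp ?_).measurable
      fun_prop)
    (fun t => tau p (σ t) (g t (j0 t)) * phi p (σ t)) ?_ ?_ Finset.univ
  · rw [h1]
    refine Finset.prod_congr rfl fun t _ => ?_
    rw [hsup, tau_eq p (σ t) (hσ t)]
  · intro t t' htt z u
    have h2 : ∀ j : κ t, Function.update z ⟨t', j0 t'⟩ u ⟨t, j⟩ = z ⟨t, j⟩ := by
      intro j
      refine Function.update_of_ne ?_ _ _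
      intro h
      exact htt (congrArg Sigma.fst h).symm
    simp only [h2]
  · intro t z
    set C : ℤ_[p] := ∑ j ∈ Finset.univ.erase (j0 t), z ⟨t, j⟩ * c t j with hC
    have h2 : ∀ u, (∑ j, Function.update z ⟨t, j0 t⟩ u ⟨t, j⟩ * g t j) =
        g t (j0 t) * (C + u) := by
      intro u
      rw [← Finset.add_sum_erase _ _ (Finset.mem_univ (j0 t)), Function.update_self, mul_add, hC,
        Finset.mul_sum, add_comm, mul_comm u]
      congr 1
      refine Finset.sum_congr rfl fun j hj => ?_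
      rw [Function.update_of_ne, hc t j]
      · ring
      · intro h
        have h3 := (Sigma.mk.inj h).2
        exact (Finset.mem_erase.1 hj).1 (eq_of_heq h3)
    simp only [h2, tau_mul]
    have h3 : Measurable fun u : ℤ_[p] => tau p (σ t) (C + u) :=
      ((tau_cont p (σ t) (hσ t)).comp (continuous_const.add continuous_id)).measurable
    rw [lintegral_const_mul _ h3,
      lintegral_add_left_eq_self (μ := mu p) (fun u => tau p (σ t) u) C]
    rfl

end

/-- integration over a sum of index sets -/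
theorem lintegral_sum {K V : Type} [Fintype K] [Fintype V] (g : (K ⊕ V → ℤ_[p]) → ℝ≥0∞)
    (hg : Measurable g) : ∫⁻ z, g z ∂(hm p (K ⊕ V)) =
      ∫⁻ x, ∫⁻ y, g (Sum.elim y x) ∂(hm p K) ∂(hm p V) := by
  have h1 := (measurePreserving_sumPiEquivProdPi_symm (fun _ : K ⊕ V => mu p))
  have h2 := h1.lintegral_comp hg
  rw [← h2]
  exact lintegral_prod_symm' _ (hg.comp h1.measurable)

end Pool.Agent.TH192.PA
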