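import Pool.Agent.TH192.PA.Towers
import Pool.Agent.TH192.PA.YInt
import Pool.Agent.TH192.DT.Types

set_option autoImplicit false
set_option linter.unusedSectionVars false
set_option linter.unusedVariables false

/-! # The norms of the minors and of the Pfaffians -/

namespace Pool.Agent.TH192.PA

open Matrix Pool.Agent.W427.SMC Pool.Agent.W574.SM Pool.Agent.TH192.DT
open scoped NNReal

variable {q : ℕ} [Fact q.Prime]

theorem mn_eq_sup {m n k : ℕ} (Y : Matrix (Fin m) (Fin n) ℤ_[q]) :
    mn k Y = Finset.univ.sup fun rc : (Fin k ↪o Fin m) × (Fin k ↪o Fin n) =>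
      ‖minorsOf Y k rc‖₊ := by
  classical
  refine le_antisymm (mn_le fun r c => ?_) (Finset.sup_le fun rc _ => le_mn Y _ _)
  by_cases h1 : Function.Injective r
  · by_cases h2 : Function.Injective c
    · obtain ⟨r0, π1, hr⟩ := exists_sort r h1
      obtain ⟨c0, π2, hc⟩ := exists_sort c h2
      have h3 : Y.submatrix r c = ((Y.submatrix r0 c0).submatrix π1 id).submatrix id π2 := by
        ext1 i j
        simp only [Matrix.submatrix_apply, id_eq, hr, hc]
      have h4 : ‖(Y.submatrix r c).det‖₊ = ‖minorsOf Y k (r0, c0)‖₊ := by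
        rw [h3, Matrix.det_permute', Matrix.det_permute, minorsOf, nnnorm_mul, nnnorm_mul]
        have h5 : ∀ π : Equiv.Perm (Fin k), ‖((Equiv.Perm.sign π : ℤ) : ℤ_[q])‖₊ = 1 := by
          intro π
          rcases Int.units_eq_one_or (Equiv.Perm.sign π) with h | h <;> rw [h] <;> simp
        rw [h5, h5, one_mul, one_mul]
      rw [h4]
      exact Finset.le_sup (f := fun rc : (Fin k ↪o Fin m) × (Fin k ↪o Fin n) =>
        ‖minorsOf Y k rc‖₊) (Finset.mem_univ (r0, c0))
    · rw [Function.not_injective_iff] at h2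
      obtain ⟨i, j, hij, hne⟩ := h2
      have h3 : (Y.submatrix r c).det = 0 := by
        rw [← Matrix.det_transpose]
        refine Matrix.det_zero_of_row_eq hne ?_
        funext k
        simp only [Matrix.transpose_apply, Matrix.submatrix_apply, hij]
      rw [h3, nnnorm_zero]
      exact zero_le
  · rw [Function.not_injective_iff] at h1
    obtain ⟨i, j, hij, hne⟩ := h1
    have h3 : (Y.submatrix r c).det = 0 := by
      refine Matrix.det_zero_of_row_eq hne ?_
      funext k
      simp only [Matrix.submatrix_apply, hij]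
    rw [h3, nnnorm_zero]
    exact zero_le

/-- the maximal norm of the principal minors -/
noncomputable def pn {I : Type} [Fintype I] (k : ℕ) (Y : Matrix I I ℤ_[q]) : ℝ≥0 :=
  Finset.univ.sup fun r : Fin k → I => ‖(Y.submatrix r r).det‖₊

theorem le_pn {I : Type} [Fintype I] {k : ℕ} (Y : Matrix I I ℤ_[q]) (r : Fin k → I) :
    ‖(Y.submatrix r r).det‖₊ ≤ pn k Y :=
  Finset.le_sup (f := fun r : Fin k → I => ‖(Y.submatrix r r).det‖₊) (Finset.mem_univ r)

theorem pn_smul {I : Type} [Fintype I] (k : ℕ) (x : ℤ_[q]) (Y : Matrix I I ℤ_[q]) :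
    pn k (x • Y) = ‖x‖₊ ^ k * pn k Y := by
  unfold pn
  rw [NNReal.mul_finset_sup]
  refine Finset.sup_congr rfl fun r _ => ?_
  have h2 : (x • Y).submatrix r r = x • Y.submatrix r r := rfl
  rw [h2, Matrix.det_smul, Fintype.card_fin, nnnorm_mul, nnnorm_pow]

theorem skew_diag {I : Type} (Y : Matrix I I ℤ_[q]) (hY : Y.transpose = - Y) (i : I) :
    Y i i = 0 := by
  have h5 : Y i i = - Y i i := congrFun (congrFun hY i) i
  have h6 : (2 : ℤ_[q]) * Y i i = 0 := by linear_combination h5
  rcases mul_eq_zero.1 h6 with h7 | h7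
  · exact absurd h7 two_ne_zero
  · exact h7

/-- **The maximal minors of a skew matrix are principal.** -/
theorem mn_le_pn : ∀ (l : ℕ) (I : Type) [Fintype I], Fintype.card I = l →
    ∀ Y : Matrix I I ℤ_[q], Y.transpose = - Y → ∀ k, mn (2 * k) Y ≤ pn (2 * k) Y := by
  classical
  intro l
  induction l using Nat.strong_induction_on with
  | _ l ih =>
    intro I _ hl Y hY k
    rcases k with _ | k
    · rw [Nat.mul_zero, mn_zero]
      have h1 := le_pn Y (Fin.elim0 : Fin 0 → I)
      rwa [Matrix.det_isEmpty, nnnorm_one] at h1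
    by_cases hY0 : Y = 0
    · refine mn_le fun r c => ?_
      rw [hY0]
      have h1 : ((0 : Matrix I I ℤ_[q]).submatrix r c).det = 0 := by
        have : (0 : Matrix I I ℤ_[q]).submatrix r c = 0 := rfl
        have hne : Nonempty (Fin (2 * (k + 1))) := ⟨⟨0, by omega⟩⟩
        rw [this]
        exact Matrix.det_zero
      rw [h1, nnnorm_zero]
      exact zero_le
    have hne : ∃ a b, Y a b ≠ 0 := by
      by_contra h
      push Not at h
      exact hY0 (Matrix.ext h)
    obtain ⟨a, b, hab⟩ := hne
    have : Nonempty (I × I) := ⟨(a, b)⟩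
    obtain ⟨⟨i, j⟩, _, hmax⟩ := Finset.exists_max_image (Finset.univ : Finset (I × I))
      (fun x => ‖Y x.1 x.2‖) Finset.univ_nonempty
    have hij0 : Y i j ≠ 0 := by
      intro h
      have h1 := hmax (a, b) (Finset.mem_univ _)
      simp only [h, norm_zero] at h1
      exact hab (norm_le_zero_iff.1 h1)
    have hd : ∀ x y, ∃ c, Y x y = Y i j * c := fun x y =>
      dvd_of_norm_le q _ _ (hmax (x, y) (Finset.mem_univ _))
    choose Z hZ using hd
    set Z' : Matrix I I ℤ_[q] := Matrix.of Z with hZ'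
    have hYZ : Y = Y i j • Z' := by
      ext x y
      rw [Matrix.smul_apply, smul_eq_mul]
      exact hZ x y
    have hZs : Z'.transpose = - Z' := by
      ext x y
      rw [Matrix.transpose_apply, Matrix.neg_apply]
      apply mul_left_cancel₀ hij0
      change Y i j * Z y x = Y i j * - Z x y
      rw [← hZ y x, mul_neg, ← hZ x y]
      exact congrFun (congrFun hY x) y
    have hZij : Z' i j = 1 := by
      apply mul_left_cancel₀ hij0
      change Y i j * Z i j = _
      rw [← hZ i j, mul_one]
    have hij : i ≠ j := by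
      intro h
      subst h
      rw [skew_diag Z' hZs i] at hZij
      exact zero_ne_one hZij
    have hZji : Z' j i = -1 := by
      have h1 : Z' j i = - Z' i j := congrFun (congrFun hZs i) j
      rw [h1, hZij]
    rw [hYZ, mn_smul, pn_smul]
    refine mul_le_mul_of_nonneg_left ?_ zero_le
    have hpiv : (piv Z' (eq2 i j hij) (eq2 i j hij)).det = 1 := by
      rw [Matrix.det_fin_two]
      change Z' i i * Z' j j - Z' i j * Z' j i = 1
      rw [skew_diag Z' hZs i, hZij, hZji]
      ring
    have hU : IsUnit (piv Z' (eq2 i j hij) (eq2 i j hij)).det := by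
      rw [hpiv]; exact isUnit_one
    have hcard := Fintype.card_congr (eq2 i j hij)
    rw [Fintype.card_sum, Fintype.card_fin] at hcard
    set S := schur Z' (eq2 i j hij) (eq2 i j hij) with hS
    have hSs : S.transpose = - S := by
      have h2 := schur_eps (-1 : ℤ_[q]) (by ring) Z' (eq2 i j hij) hU (by rw [neg_one_smul, hZs])
      rwa [neg_one_smul] at h2
    have h1 : mn (2 * (k + 1)) Z' = mn (2 * k) S := by
      rw [mn_schur Z' (eq2 i j hij) (eq2 i j hij) hU]
      congr 1
    rw [h1]
    refine (ih _ (by omega) {x : I // x ≠ i ∧ x ≠ j} rfl S hSs k).trans ?_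
    refine Finset.sup_le fun r _ => ?_
    have h2 := det_schur Z' (eq2 i j hij) (eq2 i j hij) hU r r
    rw [hpiv, one_mul] at h2
    set e : Fin (2 * (k + 1)) ≃ Fin 2 ⊕ Fin (2 * k) :=
      (finCongr (by ring)).trans finSumFinEquiv.symm with he
    have h3 : ‖(S.submatrix r r).det‖₊ = ‖(Z'.submatrix ((eq2 i j hij ∘ Sum.map id r) ∘ e)
        ((eq2 i j hij ∘ Sum.map id r) ∘ e)).det‖₊ := by
      rw [← Matrix.submatrix_submatrix, Matrix.det_submatrix_equiv_self, h2]
    rw [h3]
    exact le_pn Z' _

theorem mn_eq_pf {n k : ℕ} (Y : Matrix (Fin n) (Fin n) ℤ_[q]) (hY : Y.transpose = - Y) :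
    mn (2 * k) Y = (Finset.univ.sup fun r : Fin (2 * k) ↪o Fin n =>
      ‖Pool.Agent.Helper929.pf (2 * k) (Y.submatrix r r)‖₊) ^ 2 := by
  classical
  have hsq : ∀ r : Fin (2 * k) ↪o Fin n,
      ‖Pool.Agent.Helper929.pf (2 * k) (Y.submatrix r r)‖₊ ^ 2 = ‖(Y.submatrix r r).det‖₊ := by
    intro r
    rw [← nnnorm_pow]
    congr 1
    have hinj : Function.Injective (PadicInt.Coe.ringHom : ℤ_[q] →+* ℚ_[q]) :=
      fun x y h => Subtype.ext h
    apply hinj
    rw [map_pow, Pool.Agent.Helper929.pf_map, Pool.Agent.Helper929.pf_sq, RingHom.map_det]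
    · rfl
    · intro i j
      have h1 : Y (r i) (r j) = - Y (r j) (r i) := congrFun (congrFun hY (r j)) (r i)
      rw [Matrix.map_apply, Matrix.map_apply, Matrix.submatrix_apply, Matrix.submatrix_apply, h1,
        map_neg]
  have h1 : (Finset.univ.sup fun r : Fin (2 * k) ↪o Fin n =>
      ‖Pool.Agent.Helper929.pf (2 * k) (Y.submatrix r r)‖₊) ^ 2 =
      Finset.univ.sup fun r : Fin (2 * k) ↪o Fin n => ‖(Y.submatrix r r).det‖₊ := by
    have h2 := Finset.apply_sup_eq_sup_comp_of_linearOrder (s := (Finset.univ :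
      Finset (Fin (2 * k) ↪o Fin n)))
      (f := fun r => ‖Pool.Agent.Helper929.pf (2 * k) (Y.submatrix r r)‖₊)
      (fun x : ℝ≥0 => x ^ 2) (pow_left_mono 2) (by
        change (0 : ℝ≥0) ^ 2 = 0
        simp)
    rw [h2]
    exact Finset.sup_congr rfl fun r _ => hsq r
  rw [h1]
  refine le_antisymm ((mn_le_pn _ _ rfl Y hY k).trans (Finset.sup_le fun r _ => ?_))
    (Finset.sup_le fun r _ => le_mn Y _ _)
  by_cases hr : Function.Injective r
  · obtain ⟨r0, π, hr0⟩ := exists_sort r hr
    have h3 : Y.submatrix r r = (Y.submatrix r0 r0).submatrix π π := by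
      ext1 i j
      simp only [Matrix.submatrix_apply, hr0]
    rw [h3, Matrix.det_submatrix_equiv_self]
    exact Finset.le_sup (f := fun r : Fin (2 * k) ↪o Fin n => ‖(Y.submatrix r r).det‖₊)
      (Finset.mem_univ r0)
  · rw [Function.not_injective_iff] at hr
    obtain ⟨i, j, hij, hne⟩ := hr
    have h3 : (Y.submatrix r r).det = 0 := by
      refine Matrix.det_zero_of_row_eq hne ?_
      funext k
      simp only [Matrix.submatrix_apply, hij]
    rw [h3, nnnorm_zero]
    exact zero_le

end Pool.Agent.TH192.PA
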