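import Pool.Agent.TH192.PA.Tower
import Pool.Agent.TH192.PA.Norm

set_option autoImplicit false
set_option linter.unusedSectionVars false
set_option linter.unusedVariables false

/-! # Spaces of matrices -/

namespace Pool.Agent.TH192.PA

open MeasureTheory Pool.Agent.W427.SMC Matrix
open scoped ENNReal NNReal

attribute [local instance] msZ bsZ

variable {p : ℕ} [Fact p.Prime]

/-- A space of matrices, in coordinates which are entries of the matrix. -/
structure MSp (p : ℕ) [Fact p.Prime] where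
  I : Type
  J : Type
  ι : Type
  fI : Fintype I
  fJ : Fintype J
  fι : Fintype ι
  M : (ι → ℤ_[p]) → Matrix I J ℤ_[p]
  pos : ι → I × J
  hpos : ∀ z q, M z (pos q).1 (pos q).2 = z q
  add : ∀ z z', M (z + z') = M z + M z'
  smul : ∀ (c : ℤ_[p]) z, M (fun i => c * z i) = c • M z
  cont : Continuous M

attribute [instance] MSp.fI MSp.fJ MSp.fι

theorem isUnit_iff_dvd (x : ℤ_[p]) : IsUnit x ↔ ¬ (p : ℤ_[p]) ∣ x := by
  rw [PadicInt.isUnit_iff, ← PadicInt.norm_lt_one_iff_dvd, not_lt]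
  exact ⟨fun h => h.ge, fun h => le_antisymm (PadicInt.norm_le_one x) h⟩

theorem isUnit_of_toZMod {x y : ℤ_[p]} (h : PadicInt.toZMod x = PadicInt.toZMod y)
    (hx : IsUnit x) : IsUnit y := by
  rw [isUnit_iff_dvd] at hx ⊢
  intro hy
  apply hx
  have h1 : (p : ℤ_[p]) ∣ x - y := dvd_of_toZMod p _ (by rw [map_sub, h, sub_self])
  have h2 : x = (x - y) + y := by ring
  rw [h2]
  exact dvd_add h1 hy

/-- The norms of the `c k`-minors, to the power `1 / c`. -/
noncomputable def MSp.toSp (X : MSp p) (c : ℕ) (hc : 0 < c) : Sp p where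
  ι := X.ι
  fι := X.fι
  nrm k z := (mn (c * k) (X.M z)) ^ ((c : ℝ)⁻¹)
  meas k := by
    refine Continuous.measurable ?_
    have h1 : Continuous fun z => mn (c * k) (X.M z) := (continuous_mn _).comp X.cont
    exact (NNReal.continuous_rpow_const (by positivity)).comp h1
  zero z := by rw [Nat.mul_zero, mn_zero, NNReal.one_rpow]
  le k z := NNReal.rpow_le_one (mn_le_one _ _) (by positivity)
  smul k z := by
    rw [X.smul, mn_smul, NNReal.mul_rpow]
    congr 1
    have h1 : ‖(p : ℤ_[p])‖₊ = (p : ℝ≥0)⁻¹ := by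
      apply NNReal.coe_injective
      rw [coe_nnnorm, PadicInt.norm_p, NNReal.coe_inv, NNReal.coe_natCast]
    rw [h1, ← NNReal.rpow_natCast, ← NNReal.rpow_mul, ← NNReal.rpow_natCast]
    congr 1
    have : (c : ℝ) ≠ 0 := by positivity
    push_cast
    field_simp

section schur

variable {R S : Type} [CommRing R] [CommRing S] {I J I' J' : Type}

theorem map_inv_of_unit {k : ℕ} (φ : R →+* S) (A : Matrix (Fin k) (Fin k) R) (hA : IsUnit A.det) :
    (A⁻¹).map φ = (A.map φ)⁻¹ := by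
  symm
  apply Matrix.inv_eq_right_inv
  have h1 : A.map φ * (A⁻¹).map φ = (A * A⁻¹).map φ := (Matrix.map_mul).symm
  rw [h1, Matrix.mul_nonsing_inv _ hA]
  exact (Matrix.map_one _ (map_zero φ) (map_one φ))

theorem map_schur {k : ℕ} (φ : R →+* S) (Y : Matrix I J R) (e1 : Fin k ⊕ I' → I)
    (e2 : Fin k ⊕ J' → J) (hA : IsUnit (piv Y e1 e2).det) :
    (schur Y e1 e2).map φ = schur (Y.map φ) e1 e2 := by
  have h1 := map_inv_of_unit φ (piv Y e1 e2) hA
  have h2 : (piv Y e1 e2).map φ = piv (Y.map φ) e1 e2 := rfl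
  rw [h2] at h1
  have h3 : (Y.submatrix (e1 ∘ Sum.inl) (e2 ∘ Sum.inl)) = piv Y e1 e2 := rfl
  have h4 : ((Y.map φ).submatrix (e1 ∘ Sum.inl) (e2 ∘ Sum.inl)) = piv (Y.map φ) e1 e2 := rfl
  unfold schur
  rw [h3, h4, ← h1, Matrix.map_sub φ (map_sub φ), Matrix.map_mul, Matrix.map_mul]
  rfl

theorem schur_eps {k : ℕ} (ε : R) (hε : ε * ε = 1) (Y : Matrix I I R) (e : Fin k ⊕ I' → I)
    (hA : IsUnit (piv Y e e).det) (hY : Y.transpose = ε • Y) :
    (schur Y e e).transpose = ε • schur Y e e := by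
  have hsub : ∀ {P Q : Type} (f : P → I) (g : Q → I),
      (Y.submatrix f g).transpose = ε • Y.submatrix g f := by
    intro P Q f g
    rw [Matrix.transpose_submatrix, hY]
    rfl
  have hinv : ((piv Y e e)⁻¹).transpose = ε • (piv Y e e)⁻¹ := by
    rw [Matrix.transpose_nonsing_inv]
    apply Matrix.inv_eq_right_inv
    have h1 : (piv Y e e).transpose = ε • piv Y e e := hsub _ _
    rw [h1, Matrix.smul_mul, Matrix.mul_smul, smul_smul, hε, one_smul,
      Matrix.mul_nonsing_inv _ hA]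
  have h3 : (Y.submatrix (e ∘ Sum.inl) (e ∘ Sum.inl)) = piv Y e e := rfl
  unfold schur
  rw [h3, Matrix.transpose_sub, Matrix.transpose_mul, Matrix.transpose_mul, hinv, hsub, hsub, hsub,
    smul_sub]
  congr 1
  have h5 : ∀ (A : Matrix I' (Fin k) R) (B : Matrix (Fin k) (Fin k) R) (C : Matrix (Fin k) I' R),
      (ε • A) * (ε • B * ε • C) = ε • (A * B * C) := by
    intro A B C
    rw [Matrix.smul_mul, Matrix.smul_mul, Matrix.mul_smul, Matrix.mul_smul, Matrix.mul_smul,
      smul_smul, smul_smul, hε, Matrix.mul_assoc, one_mul]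
  exact h5 _ _ _

end schur

theorem continuous_piv_inv {α : Type} [TopologicalSpace α] {k : ℕ}
    (A : α → Matrix (Fin k) (Fin k) ℤ_[p]) (hA : Continuous A) (hU : ∀ x, IsUnit (A x).det) :
    Continuous fun x => (A x)⁻¹ := by
  have h1 : Continuous fun x => Ring.inverse (A x).det := by
    rw [continuous_iff_continuousAt]
    intro x
    obtain ⟨u, hu⟩ := hU x
    have h2 : ContinuousAt Ring.inverse (A x).det := by
      rw [← hu]
      exact NormedRing.inverse_continuousAt u
    exact ContinuousAt.comp (f := fun x => (A x).det) (g := Ring.inverse) h2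
      hA.matrix_det.continuousAt
  simp only [Matrix.inv_def]
  exact h1.smul hA.matrix_adjugate

/-- **Pivots.** -/
theorem piv_rel (X Y : MSp p) (c : ℕ) (hc : 0 < c) (δ : ℕ) (hδ : 0 < δ) {k : ℕ} (hk : k = c * δ)
    (e1 : Fin k ⊕ Y.I ≃ X.I) (e2 : Fin k ⊕ Y.J ≃ X.J) (w : X.ι → ℤ_[p])
    (hA : IsUnit (piv (X.M w) e1 e2).det)
    (hS : ∀ z, IsUnit (piv (X.M z) e1 e2).det → ∃ y, Y.M y = schur (X.M z) e1 e2)
    (hE : ∀ y, ∃ x, (X.M x).submatrix e1 e2 = Matrix.fromBlocks 0 0 0 (Y.M y)) :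
    PivRel (X.toSp c hc) (Y.toSp c hc) δ w := by
  classical
  set φ : ℤ_[p] →+* ZMod p := PadicInt.toZMod with hφ
  have hφp : φ (p : ℤ_[p]) = 0 := by
    rw [map_natCast, ZMod.natCast_self]
  -- the point `w + p z`
  set W : (X.ι → ℤ_[p]) → (X.ι → ℤ_[p]) := fun z i => w i + (p : ℤ_[p]) * z i with hW
  have hMW : ∀ z, X.M (W z) = X.M w + (p : ℤ_[p]) • X.M z := by
    intro z
    have h1 : W z = w + fun i => (p : ℤ_[p]) * z i := rfl
    rw [h1, X.add, X.smul]
  have hMWφ : ∀ z, (X.M (W z)).map φ = (X.M w).map φ := by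
    intro z
    rw [hMW]
    ext i j
    rw [Matrix.map_apply, Matrix.map_apply, Matrix.add_apply, Matrix.smul_apply, map_add,
      smul_eq_mul, map_mul, hφp, zero_mul, add_zero]
  have hU : ∀ z, IsUnit (piv (X.M (W z)) e1 e2).det := by
    intro z
    refine isUnit_of_toZMod ?_ hA
    have h1 : ∀ v, φ (piv (X.M v) e1 e2).det = (piv ((X.M v).map φ) e1 e2).det := by
      intro v
      rw [RingHom.map_det]
      rfl
    change φ _ = φ _
    rw [h1, h1, hMWφ]
  set crd : Matrix Y.I Y.J ℤ_[p] → (Y.ι → ℤ_[p]) := fun N q => N (Y.pos q).1 (Y.pos q).2 with hcrd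
  have hcM : ∀ y, crd (Y.M y) = y := fun y => funext fun q => Y.hpos y q
  have hMc : ∀ z, IsUnit (piv (X.M z) e1 e2).det →
      Y.M (crd (schur (X.M z) e1 e2)) = schur (X.M z) e1 e2 := by
    intro z hz
    obtain ⟨y, hy⟩ := hS z hz
    rw [← hy, hcM]
  set S : (X.ι → ℤ_[p]) → Matrix Y.I Y.J ℤ_[p] := fun z => schur (X.M (W z)) e1 e2 with hSdef
  set w' : Y.ι → ℤ_[p] := crd (schur (X.M w) e1 e2) with hw'
  have hdvd : ∀ z q, ∃ x, crd (S z) q - w' q = (p : ℤ_[p]) * x := by
    intro z q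
    refine dvd_of_toZMod p _ ?_
    rw [map_sub, sub_eq_zero]
    have h1 := map_schur φ (X.M (W z)) e1 e2 (hU z)
    have h2 := map_schur φ (X.M w) e1 e2 hA
    rw [hMWφ] at h1
    have h3 := congrFun (congrFun (h1.trans h2.symm) (Y.pos q).1) (Y.pos q).2
    exact h3
  obtain ⟨f, hf, hfp⟩ := exists_divp p
  choose h hh using hE
  set Φ : (X.ι → ℤ_[p]) → (Y.ι → ℤ_[p]) := fun z q => f (crd (S z) q - w' q) with hΦ
  have hΦp : ∀ z q, crd (S z) q = w' q + (p : ℤ_[p]) * Φ z q := by
    intro z q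
    obtain ⟨x, hx⟩ := hdvd z q
    have h1 : Φ z q = x := by rw [hΦ]; simp only; rw [hx, hfp]
    rw [h1, ← hx]
    ring
  have hmeas : Measurable Φ := by
    have hWc : Continuous W := by
      rw [hW]
      fun_prop
    have hMc' : Continuous fun z => X.M (W z) := X.cont.comp hWc
    have hSc : Continuous S := by
      rw [hSdef]
      unfold schur
      have h1 : Continuous fun z => ((X.M (W z)).submatrix (e1 ∘ Sum.inl) (e2 ∘ Sum.inl))⁻¹ :=
        continuous_piv_inv _ (hMc'.matrix_submatrix _ _) hU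
      exact (hMc'.matrix_submatrix _ _).sub
        (((hMc'.matrix_submatrix _ _).matrix_mul h1).matrix_mul (hMc'.matrix_submatrix _ _))
    rw [measurable_pi_iff]
    intro q
    refine hf.comp (Continuous.measurable ?_)
    have h2 : Continuous fun z => S z (Y.pos q).1 (Y.pos q).2 := hSc.matrix_elem _ _
    exact h2.sub continuous_const
  have hequiv : ∀ (z : X.ι → ℤ_[p]) (y : Y.ι → ℤ_[p]), Φ (h y + z) = y + Φ z := by
    intro z y
    have h1 : S (h y + z) = S z + (p : ℤ_[p]) • Y.M y := by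
      have h2 : X.M (W (h y + z)) = X.M (W z) + (p : ℤ_[p]) • X.M (h y) := by
        rw [hMW, hMW, X.add, smul_add]
        abel
      have h3 : ∀ (a : Fin k ⊕ Y.I) (b : Fin k ⊕ Y.J), X.M (h y) (e1 a) (e2 b) =
          Matrix.fromBlocks 0 0 0 (Y.M y) a b := fun a b => congrFun (congrFun (hh y) a) b
      have e11 : (X.M (W (h y + z))).submatrix (e1 ∘ Sum.inl) (e2 ∘ Sum.inl) =
          (X.M (W z)).submatrix (e1 ∘ Sum.inl) (e2 ∘ Sum.inl) := by
        ext a b
        have h4 := h3 (Sum.inl a) (Sum.inl b)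
        rw [Matrix.fromBlocks_apply₁₁, Matrix.zero_apply] at h4
        simp only [Matrix.submatrix_apply, Function.comp_apply, h2, Matrix.add_apply,
          Matrix.smul_apply, h4, smul_zero, add_zero]
      have e12 : (X.M (W (h y + z))).submatrix (e1 ∘ Sum.inl) (e2 ∘ Sum.inr) =
          (X.M (W z)).submatrix (e1 ∘ Sum.inl) (e2 ∘ Sum.inr) := by
        ext a b
        have h4 := h3 (Sum.inl a) (Sum.inr b)
        rw [Matrix.fromBlocks_apply₁₂, Matrix.zero_apply] at h4
        simp only [Matrix.submatrix_apply, Function.comp_apply, h2, Matrix.add_apply,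
          Matrix.smul_apply, h4, smul_zero, add_zero]
      have e21 : (X.M (W (h y + z))).submatrix (e1 ∘ Sum.inr) (e2 ∘ Sum.inl) =
          (X.M (W z)).submatrix (e1 ∘ Sum.inr) (e2 ∘ Sum.inl) := by
        ext a b
        have h4 := h3 (Sum.inr a) (Sum.inl b)
        rw [Matrix.fromBlocks_apply₂₁, Matrix.zero_apply] at h4
        simp only [Matrix.submatrix_apply, Function.comp_apply, h2, Matrix.add_apply,
          Matrix.smul_apply, h4, smul_zero, add_zero]
      have e22 : (X.M (W (h y + z))).submatrix (e1 ∘ Sum.inr) (e2 ∘ Sum.inr) =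
          (X.M (W z)).submatrix (e1 ∘ Sum.inr) (e2 ∘ Sum.inr) + (p : ℤ_[p]) • Y.M y := by
        ext a b
        have h4 := h3 (Sum.inr a) (Sum.inr b)
        rw [Matrix.fromBlocks_apply₂₂] at h4
        simp only [Matrix.submatrix_apply, Function.comp_apply, h2, Matrix.add_apply,
          Matrix.smul_apply, h4]
      simp only [hSdef]
      unfold schur
      rw [e11, e12, e21, e22]
      abel
    funext q
    obtain ⟨x, hx⟩ := hdvd z q
    have h2 : crd (S (h y + z)) q = crd (S z) q + (p : ℤ_[p]) * y q := by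
      rw [h1]
      simp only [hcrd, Matrix.add_apply, Matrix.smul_apply, Y.hpos, smul_eq_mul]
    have h3 : crd (S (h y + z)) q - w' q = (p : ℤ_[p]) * (y q + x) := by
      rw [h2, mul_add, ← hx]
      ring
    have h4 : Φ (h y + z) q = y q + x := by simp only [hΦ]; rw [h3, hfp]
    have h5 : Φ z q = x := by simp only [hΦ]; rw [hx, hfp]
    rw [h4, Pi.add_apply, h5]
  have hn : ∀ (l : ℕ) (z : X.ι → ℤ_[p]), (mn (c * l) (X.M (W z))) ^ ((c : ℝ)⁻¹) =
      (mn (c * (l - δ)) (Y.M fun i => w' i + (p : ℤ_[p]) * Φ z i)) ^ ((c : ℝ)⁻¹) := by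
    intro l z
    have h1 : (fun i => w' i + (p : ℤ_[p]) * Φ z i) = crd (S z) := funext fun q => (hΦp z q).symm
    have h2 : c * l - k = c * (l - δ) := by rw [hk, Nat.mul_sub]
    rw [h1, mn_schur (X.M (W z)) e1 e2 (hU z), h2]
    have h3 : Y.M (crd (S z)) = schur (X.M (W z)) e1 e2 := hMc (W z) (hU z)
    rw [h3]
  exact ⟨hδ, Φ, h, w', hmeas, hequiv, hn⟩

end Pool.Agent.TH192.PA
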