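import Pool.Agent.TH192.PA.Haar

set_option autoImplicit false
set_option linter.unusedSectionVars false
set_option linter.unusedVariables false

/-! # The recursion for the zeta functions -/

namespace Pool.Agent.TH192.PA

open MeasureTheory Pool.Agent.W427.SMC Polynomial
open scoped ENNReal NNReal

attribute [local instance] msZ bsZ

/-- A space `ℤ_p ^ ι` with functions `nrm k`, the norms of the ideals of the `k`-minors. -/
structure Sp (p : ℕ) [Fact p.Prime] where
  ι : Type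
  fι : Fintype ι
  nrm : ℕ → (ι → ℤ_[p]) → ℝ≥0
  meas : ∀ k, Measurable (nrm k)
  zero : ∀ z, nrm 0 z = 1
  le : ∀ k z, nrm k z ≤ 1
  smul : ∀ k z, nrm k (fun i => (p : ℤ_[p]) * z i) = (p : ℝ≥0)⁻¹ ^ k * nrm k z

attribute [instance] Sp.fι

variable {p : ℕ} [Fact p.Prime]

/-- The reduction of the residue class of `w` in the space `X` to the space `Y`. -/
def PivRel (X Y : Sp p) (δ : ℕ) (w : X.ι → ℤ_[p]) : Prop :=
  0 < δ ∧ ∃ (Φ : (X.ι → ℤ_[p]) → (Y.ι → ℤ_[p])) (h : (Y.ι → ℤ_[p]) → (X.ι → ℤ_[p]))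
    (w' : Y.ι → ℤ_[p]), Measurable Φ ∧ (∀ z y, Φ (h y + z) = y + Φ z) ∧
    ∀ k z, X.nrm k (fun i => w i + (p : ℤ_[p]) * z i) =
      Y.nrm (k - δ) (fun i => w' i + (p : ℤ_[p]) * Φ z i)

/-- A space which can be reduced to smaller ones in all non-zero residue classes; `ν d` is the
dimension. -/
inductive Tower (ν : ℕ → ℕ) : Sp p → ℕ → Prop
  | mk (X : Sp p) (d : ℕ) (hν : Fintype.card X.ι = ν d) (Y : (X.ι → ℤ_[p]) → Sp p)
      (δ : (X.ι → ℤ_[p]) → ℕ)
      (h1 : ∀ w, (∃ i, ¬ (p : ℤ_[p]) ∣ w i) → Tower ν (Y w) (d + δ w))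
      (h2 : ∀ w, (∃ i, ¬ (p : ℤ_[p]) ∣ w i) → PivRel X (Y w) (δ w) w) : Tower ν X d

variable {T : ℕ}

/-- `∏ t, ‖I_{e t}‖ ^ (a t s)` -/
noncomputable def FF (X : Sp p) (e a : Fin T → ℕ) (s : ℝ) (z : X.ι → ℤ_[p]) : ℝ≥0∞ :=
  ∏ t, ((X.nrm (e t) z : ℝ≥0) : ℝ≥0∞) ^ ((a t : ℝ) * s)

theorem FF_meas (X : Sp p) (e a : Fin T → ℕ) (s : ℝ) : Measurable (FF X e a s) := by
  unfold FF
  exact Finset.measurable_prod _ fun t _ =>
    (measurable_coe_nnreal_ennreal.comp (X.meas _)).pow_const _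

theorem FF_le (X : Sp p) (e a : Fin T → ℕ) (s : ℝ) (hs : 0 < s) (z : X.ι → ℤ_[p]) :
    FF X e a s z ≤ 1 := by
  unfold FF
  refine Finset.prod_le_one' fun t _ => ?_
  exact ENNReal.rpow_le_one (by exact_mod_cast X.le _ _) (by positivity)

theorem FF_one (X : Sp p) (e a : Fin T → ℕ) (s : ℝ) (h : ∑ t, a t * e t = 0)
    (z : X.ι → ℤ_[p]) : FF X e a s z = 1 := by
  unfold FF
  refine Finset.prod_eq_one fun t _ => ?_
  have h1 := (Finset.sum_eq_zero_iff.1 h) t (Finset.mem_univ t)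
  rcases Nat.mul_eq_zero.1 h1 with h2 | h2
  · rw [h2, Nat.cast_zero, zero_mul, ENNReal.rpow_zero]
  · rw [h2, X.zero, ENNReal.coe_one, ENNReal.one_rpow]

theorem FF_smul (X : Sp p) (e a : Fin T → ℕ) (s : ℝ) (hs : 0 < s) (z : X.ι → ℤ_[p]) :
    FF X e a s (fun i => (p : ℤ_[p]) * z i) = Tt p s ^ (∑ t, a t * e t) * FF X e a s z := by
  unfold FF
  rw [← Finset.prod_pow_eq_pow_sum, ← Finset.prod_mul_distrib]
  refine Finset.prod_congr rfl fun t _ => ?_
  rw [X.smul, ENNReal.coe_mul, ENNReal.mul_rpow_of_nonneg _ _ (by positivity)]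
  congr 1
  have hp0 : (p : ℝ≥0) ≠ 0 := by exact_mod_cast (Fact.out : p.Prime).ne_zero
  have h1 : Tt p s = (((p : ℝ≥0)⁻¹ : ℝ≥0) : ℝ≥0∞) ^ s := by
    unfold Tt
    rw [Real.rpow_neg (Nat.cast_nonneg _), ← Real.inv_rpow (Nat.cast_nonneg _),
      ← ENNReal.ofReal_rpow_of_nonneg (by positivity) hs.le]
    congr 1
    rw [ENNReal.ofReal, Real.toNNReal_inv, Real.toNNReal_natCast]
  rw [h1, ENNReal.coe_pow, ← ENNReal.rpow_natCast, ← ENNReal.rpow_natCast, ← ENNReal.rpow_mul,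
    ← ENNReal.rpow_mul]
  congr 1
  push_cast
  ring

/-- the integral over a residue class -/
noncomputable def HH (X : Sp p) (e a : Fin T → ℕ) (s : ℝ) (w : X.ι → ℤ_[p]) : ℝ≥0∞ :=
  ∫⁻ z, FF X e a s (fun i => w i + (p : ℤ_[p]) * z i) ∂(hm p X.ι)

/-- the integral -/
noncomputable def GG (X : Sp p) (e a : Fin T → ℕ) (s : ℝ) : ℝ≥0∞ :=
  ∫⁻ z, FF X e a s z ∂(hm p X.ι)

theorem HH_le (X : Sp p) (e a : Fin T → ℕ) (s : ℝ) (hs : 0 < s) (w : X.ι → ℤ_[p]) :
    HH X e a s w ≤ 1 := by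
  unfold HH
  refine (lintegral_mono fun z => FF_le X e a s hs _).trans ?_
  rw [lintegral_one, measure_univ]

theorem GG_le (X : Sp p) (e a : Fin T → ℕ) (s : ℝ) (hs : 0 < s) : GG X e a s ≤ 1 := by
  unfold GG
  refine (lintegral_mono fun z => FF_le X e a s hs _).trans ?_
  rw [lintegral_one, measure_univ]

theorem HH_piv (X Y : Sp p) (δ : ℕ) (w : X.ι → ℤ_[p]) (h : PivRel X Y δ w) :
    ∃ w', ∀ (e a : Fin T → ℕ) (s : ℝ), HH X e a s w = HH Y (fun t => e t - δ) a s w' := by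
  classical
  obtain ⟨_, Φ, h, w', hm, he, hk⟩ := h
  refine ⟨w', fun e a s => ?_⟩
  unfold HH
  rw [← lintegral_equivariant p Φ h hm he
    (fun y => FF Y (fun t => e t - δ) a s (fun i => w' i + (p : ℤ_[p]) * y i))
    ((FF_meas Y _ a s).comp (meas_affV p w'))]
  refine lintegral_congr fun z => ?_
  unfold FF
  exact Finset.prod_congr rfl fun t _ => by rw [hk]

theorem HH_zero (X : Sp p) (e a : Fin T → ℕ) (s : ℝ) (hs : 0 < s) (w : X.ι → ℤ_[p])
    (hw : ∀ i, (p : ℤ_[p]) ∣ w i) :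
    HH X e a s w = Tt p s ^ (∑ t, a t * e t) * GG X e a s := by
  choose v hv using hw
  unfold HH GG
  rw [← lintegral_add_left_eq_self (μ := hm p X.ι) (FF X e a s) v,
    ← lintegral_const_mul (μ := hm p X.ι) (f := fun z => FF X e a s (v + z)) _
      ((FF_meas X e a s).comp (measurable_const_add v))]
  refine lintegral_congr fun z => ?_
  rw [← FF_smul X e a s hs]
  congr 1
  funext i
  rw [hv i, Pi.add_apply]
  ring

/-- the decomposition of the integral -/
theorem GG_eq (X : Sp p) (e a : Fin T → ℕ) (s : ℝ) [DecidableEq X.ι] :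
    GG X e a s = ∑ w : X.ι → ZMod p, ((p : ℝ≥0∞)⁻¹) ^ Fintype.card X.ι *
      HH X e a s (fun i => ((w i).val : ℤ_[p])) :=
  lintegral_smV p _ (FF_meas X e a s)

/-- the denominators -/
noncomputable def Dd (p : ℕ) (ν N : ℕ → ℕ) (R d : ℕ) : ℝ[X] :=
  ∏ e ∈ Finset.Ico d R, (1 - C (((p : ℝ)⁻¹) ^ ν e) * X ^ N e)

theorem Dd_dvd (p : ℕ) (ν N : ℕ → ℕ) (R : ℕ) {d d' : ℕ} (h : d ≤ d') :
    Dd p ν N R d' ∣ Dd p ν N R d :=
  Finset.prod_dvd_prod_of_subset _ _ _ (Finset.Ico_subset_Ico_left h)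

theorem Dd_succ (p : ℕ) (ν N : ℕ → ℕ) (R : ℕ) {d : ℕ} (h : d < R) :
    Dd p ν N R d = (1 - C (((p : ℝ)⁻¹) ^ ν d) * X ^ N d) * Dd p ν N R (d + 1) :=
  Finset.prod_eq_prod_Ico_succ_bot h _

theorem tower_int {ν : ℕ → ℕ} {X : Sp p} {d : ℕ} (hT : Tower ν X d) (R : ℕ) (e a : Fin T → ℕ)
    (hR : ∀ d', R ≤ d' → ∑ t, a t * (e t - d') = 0) :
    ∀ w : X.ι → ℤ_[p], ∃ P : ℝ[X], ∀ s : ℝ, 0 < s →
      (Dd p ν (fun d' => ∑ t, a t * (e t - d')) R d).eval (tr' p s) *
        (HH X (fun t => e t - d) a s w).toReal = P.eval (tr' p s) := by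
  classical
  induction hT with
  | mk X d hν Y δ h1 h2 ih =>
    set N : ℕ → ℕ := fun d' => ∑ t, a t * (e t - d') with hN
    -- the non-zero classes
    have hnz : ∀ w : X.ι → ℤ_[p], (∃ i, ¬ (p : ℤ_[p]) ∣ w i) → ∃ P : ℝ[X], ∀ s : ℝ, 0 < s →
        (Dd p ν N R (d + 1)).eval (tr' p s) * (HH X (fun t => e t - d) a s w).toReal =
          P.eval (tr' p s) := by
      intro w hw
      obtain ⟨w', hw'⟩ := HH_piv (T := T) X (Y w) (δ w) w (h2 w hw)
      obtain ⟨P, hP⟩ := ih w hw w'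
      have hδ : 0 < δ w := (h2 w hw).1
      obtain ⟨Q, hQ⟩ := Dd_dvd p ν N R (show d + 1 ≤ d + δ w by omega)
      refine ⟨P * Q, fun s hs => ?_⟩
      rw [hw', eval_mul, ← hP s hs, hQ, eval_mul]
      have h3 : (fun t => e t - d - δ w) = fun t => e t - (d + δ w) := by
        funext t; omega
      rw [h3]
      ring
    by_cases hN0 : N d = 0
    · intro w
      refine ⟨Dd p ν N R d, fun s hs => ?_⟩
      have h3 : HH X (fun t => e t - d) a s w = 1 := by
        unfold HH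
        rw [lintegral_congr (g := fun _ => 1) fun z => FF_one X _ a s hN0 _, lintegral_one,
          measure_univ]
      rw [h3, ENNReal.toReal_one, mul_one]
    · have hdR : d < R := by
        by_contra h
        exact hN0 (hR d (by omega))
      -- the class of zero and the whole space
      have hG : ∃ P : ℝ[X], ∀ s : ℝ, 0 < s → (Dd p ν N R d).eval (tr' p s) *
          (GG X (fun t => e t - d) a s).toReal = P.eval (tr' p s) := by
        set Z : Finset (X.ι → ZMod p) := Finset.univ.filter fun w => ∃ i, ¬ (p : ℤ_[p]) ∣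
          (((w i).val : ℕ) : ℤ_[p]) with hZ
        have h3 : ∀ w : X.ι → ZMod p, ∃ P : ℝ[X], w ∈ Z → ∀ s : ℝ, 0 < s →
            (Dd p ν N R (d + 1)).eval (tr' p s) *
              (HH X (fun t => e t - d) a s (fun i => ((w i).val : ℤ_[p]))).toReal =
              P.eval (tr' p s) := by
          intro w
          by_cases hw : w ∈ Z
          · obtain ⟨P, hP⟩ := hnz _ (Finset.mem_filter.1 hw).2
            exact ⟨P, fun _ => hP⟩
          · exact ⟨0, fun h => absurd h hw⟩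
        choose P hP using h3
        refine ⟨∑ w ∈ Z, C (((p : ℝ)⁻¹) ^ ν d) * P w, fun s hs => ?_⟩
        have hfin : ∀ w, HH X (fun t => e t - d) a s w ≠ ⊤ := fun w =>
          ne_top_of_le_ne_top ENNReal.one_ne_top (HH_le X _ a s hs w)
        have hc : ((((p : ℝ≥0∞)⁻¹) ^ Fintype.card X.ι)).toReal = ((p : ℝ)⁻¹) ^ ν d := by
          rw [hν, ENNReal.toReal_pow, ENNReal.toReal_inv, ENNReal.toReal_natCast]
        -- the sum over the classes
        have h4 : (GG X (fun t => e t - d) a s).toReal =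
            ∑ w : X.ι → ZMod p, ((p : ℝ)⁻¹) ^ ν d *
              (HH X (fun t => e t - d) a s (fun i => ((w i).val : ℤ_[p]))).toReal := by
          rw [GG_eq, ENNReal.toReal_sum]
          · refine Finset.sum_congr rfl fun w _ => ?_
            rw [ENNReal.toReal_mul, hc]
          · intro w _
            refine ENNReal.mul_ne_top ?_ (hfin _)
            refine ENNReal.pow_ne_top ?_
            rw [Ne, ENNReal.inv_eq_top]
            exact_mod_cast (Fact.out : p.Prime).ne_zero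
        have h5 : (Finset.univ.filter fun w : X.ι → ZMod p => ¬ ∃ i, ¬ (p : ℤ_[p]) ∣
            (((w i).val : ℕ) : ℤ_[p])) = {0} := by
          ext w
          simp only [Finset.mem_filter, Finset.mem_univ, true_and, not_exists, not_not,
            Finset.mem_singleton]
          constructor
          · intro h
            funext i
            have h6 := h i
            rw [p_dvd_natCast] at h6
            have h7 : (w i).val < p := ZMod.val_lt (w i)
            have h8 : (w i).val = 0 := Nat.eq_zero_of_dvd_of_lt h6 h7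
            exact (ZMod.val_eq_zero (w i)).1 h8
          · rintro rfl i
            simp
        rw [← Finset.sum_filter_add_sum_filter_not Finset.univ
          (fun w : X.ι → ZMod p => ∃ i, ¬ (p : ℤ_[p]) ∣ (((w i).val : ℕ) : ℤ_[p])), h5,
          Finset.sum_singleton, HH_zero X _ a s hs _ (by intro i; simp), ENNReal.toReal_mul,
          ENNReal.toReal_pow, Tt_toReal] at h4
        have h9 : (GG X (fun t => e t - d) a s).toReal *
            (1 - ((p : ℝ)⁻¹) ^ ν d * tr' p s ^ N d) =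
            ∑ w ∈ Z, ((p : ℝ)⁻¹) ^ ν d *
              (HH X (fun t => e t - d) a s (fun i => ((w i).val : ℤ_[p]))).toReal := by
          have h10 : (∑ t, a t * (e t - d)) = N d := rfl
          rw [h10] at h4
          linear_combination h4
        rw [Dd_succ p ν N R hdR, eval_mul, eval_finsetSum]
        have h11 : (1 - C (((p : ℝ)⁻¹) ^ ν d) * Polynomial.X ^ N d : ℝ[X]).eval (tr' p s) =
            1 - ((p : ℝ)⁻¹) ^ ν d * tr' p s ^ N d := by simp
        rw [h11]
        have h12 : ∀ w ∈ Z, (C (((p : ℝ)⁻¹) ^ ν d) * P w).eval (tr' p s) =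
            (Dd p ν N R (d + 1)).eval (tr' p s) * (((p : ℝ)⁻¹) ^ ν d *
              (HH X (fun t => e t - d) a s (fun i => ((w i).val : ℤ_[p]))).toReal) := by
          intro w hw
          rw [eval_mul, eval_C, ← hP w hw s hs]
          ring
        rw [Finset.sum_congr rfl h12, ← Finset.mul_sum, ← h9]
        ring
      intro w
      by_cases hw : ∃ i, ¬ (p : ℤ_[p]) ∣ w i
      · obtain ⟨P, hP⟩ := hnz w hw
        obtain ⟨Q, hQ⟩ := Dd_dvd p ν N R (Nat.le_succ d)
        refine ⟨P * Q, fun s hs => ?_⟩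
        rw [hQ, eval_mul, eval_mul, ← hP s hs]
        ring
      · push Not at hw
        obtain ⟨P, hP⟩ := hG
        refine ⟨Polynomial.X ^ N d * P, fun s hs => ?_⟩
        rw [HH_zero X _ a s hs w hw, ENNReal.toReal_mul, ENNReal.toReal_pow, Tt_toReal, eval_mul,
          ← hP s hs, eval_pow, eval_X]
        have h10 : (∑ t, a t * (e t - d)) = N d := rfl
        rw [h10]
        ring

/-- the whole space -/
theorem tower_GG {ν : ℕ → ℕ} {X : Sp p} (hT : Tower ν X 0) (R : ℕ) (e a : Fin T → ℕ)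
    (hR : ∀ d', R ≤ d' → ∑ t, a t * (e t - d') = 0) :
    ∃ P : ℝ[X], ∀ s : ℝ, 0 < s →
      (Dd p ν (fun d' => ∑ t, a t * (e t - d')) R 0).eval (tr' p s) *
        (GG X e a s).toReal = P.eval (tr' p s) := by
  classical
  have h1 := tower_int hT R e a hR
  choose P hP using h1
  have hcard : Fintype.card X.ι = Fintype.card X.ι := rfl
  refine ⟨∑ w : X.ι → ZMod p, C (((p : ℝ)⁻¹) ^ Fintype.card X.ι) *
    P (fun i => ((w i).val : ℤ_[p])), fun s hs => ?_⟩
  have hfin : ∀ w, HH X e a s w ≠ ⊤ := fun w =>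
    ne_top_of_le_ne_top ENNReal.one_ne_top (HH_le X _ a s hs w)
  rw [GG_eq, ENNReal.toReal_sum, Finset.mul_sum, eval_finsetSum]
  · refine Finset.sum_congr rfl fun w _ => ?_
    rw [eval_mul, eval_C, ← hP _ s hs, ENNReal.toReal_mul, ENNReal.toReal_pow,
      ENNReal.toReal_inv, ENNReal.toReal_natCast]
    simp only [Nat.sub_zero]
    ring
  · intro w _
    refine ENNReal.mul_ne_top ?_ (hfin _)
    refine ENNReal.pow_ne_top ?_
    rw [Ne, ENNReal.inv_eq_top]
    exact_mod_cast (Fact.out : p.Prime).ne_zero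

end Pool.Agent.TH192.PA
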